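import Mathlib

open MeasureTheory ProbabilityTheory Filter
open scoped ENNReal NNReal Topology

namespace Pool.Agent.H958.CBP

/-- `p` ranks the configuration `x`, ties broken by index: rank `k` is occupied by the particle
`p k`. (Ranks and particles are numbered from `0`.) -/
def IsRanking (x : ℕ → ℝ) (p : Equiv.Perm ℕ) : Prop :=
  ∀ i j, i < j → x (p i) < x (p j) ∨ (x (p i) = x (p j) ∧ p i < p j)

/-- particle `j` is below particle `i` -/
def Below (x : ℕ → ℝ) (j i : ℕ) : Prop := x j < x i ∨ (x j = x i ∧ j < i)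

lemma Below.asymm {x : ℕ → ℝ} {j i : ℕ} (h : Below x j i) : ¬ Below x i j := by
  unfold Below at *
  rcases h with h | ⟨h, h'⟩
  · rintro (h2 | ⟨h2, -⟩)
    · exact lt_asymm h h2
    · exact h.ne h2.symm
  · rintro (h2 | ⟨-, h2⟩)
    · exact h2.ne h.symm
    · exact lt_asymm h' h2

lemma IsRanking.below_iff {x : ℕ → ℝ} {p : Equiv.Perm ℕ} (h : IsRanking x p) (j i : ℕ) :
    Below x j i ↔ p.symm j < p.symm i := by
  have key : ∀ j i, p.symm j < p.symm i → Below x j i := by
    intro j i hji
    have := h _ _ hji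
    simpa [Below] using this
  refine ⟨fun hb => ?_, key j i⟩
  by_contra hcon
  rcases (not_lt.1 hcon).lt_or_eq with h1 | h1
  · exact hb.asymm (key i j h1)
  · have : i = j := p.symm.injective h1
    subst this
    rcases hb with hb | hb
    · exact lt_irrefl _ hb
    · exact lt_irrefl _ hb.2

lemma IsRanking.mono {x : ℕ → ℝ} {p : Equiv.Perm ℕ} (h : IsRanking x p) {k l : ℕ} (hkl : k ≤ l) :
    x (p k) ≤ x (p l) := by
  rcases hkl.lt_or_eq with h1 | h1
  · rcases h _ _ h1 with h2 | h2
    · exact h2.le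
    · exact h2.1.le
  · rw [h1]

lemma IsRanking.lowest {x : ℕ → ℝ} {p : Equiv.Perm ℕ} (h : IsRanking x p) (i : ℕ) :
    x (p 0) ≤ x i := by
  have := h.mono (Nat.zero_le (p.symm i))
  simpa using this

lemma IsRanking.le_of_rank_le {x : ℕ → ℝ} {p : Equiv.Perm ℕ} (h : IsRanking x p) {i k : ℕ}
    (hi : p.symm i ≤ k) : x i ≤ x (p k) := by
  have := h.mono hi
  simpa using this

lemma IsRanking.ge_of_rank_ge {x : ℕ → ℝ} {p : Equiv.Perm ℕ} (h : IsRanking x p) {i k : ℕ}
    (hi : k ≤ p.symm i) : x (p k) ≤ x i := by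
  have := h.mono hi
  simpa using this

/-- if at least `k+1` particles are at or below `v`, the particle of rank `k` is. -/
lemma IsRanking.rank_le_of_many {x : ℕ → ℝ} {p : Equiv.Perm ℕ} (h : IsRanking x p) {k : ℕ}
    {v : ℝ} {S : Finset ℕ} (hcard : k + 1 ≤ S.card) (hS : ∀ i ∈ S, x i ≤ v) : x (p k) ≤ v := by
  -- some element of `S` has rank at least `k`
  obtain ⟨i, hi, hik⟩ : ∃ i ∈ S, k ≤ p.symm i := by
    by_contra hcon
    push Not at hcon
    have h1 : S.image p.symm ⊆ Finset.range k := by
      intro y hy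
      obtain ⟨i, hi, rfl⟩ := Finset.mem_image.1 hy
      exact Finset.mem_range.2 (hcon i hi)
    have h2 := Finset.card_le_card h1
    rw [Finset.card_image_of_injective _ p.symm.injective, Finset.card_range] at h2
    omega
  exact (h.ge_of_rank_ge hik).trans (hS i hi)

/-- if every finite set of particles strictly below `v` has at most `k` elements, then the
particle of rank `k` is at or above `v`. -/
lemma IsRanking.rank_ge_of_few {x : ℕ → ℝ} {p : Equiv.Perm ℕ} (h : IsRanking x p) {k : ℕ}
    {v : ℝ} (hS : ∀ S : Finset ℕ, (∀ i ∈ S, x i < v) → S.card ≤ k) : v ≤ x (p k) := by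
  by_contra hcon
  push Not at hcon
  have h1 := hS ((Finset.range (k + 1)).image p) ?_
  · rw [Finset.card_image_of_injective _ p.injective, Finset.card_range] at h1
    omega
  · intro i hi
    obtain ⟨j, hj, rfl⟩ := Finset.mem_image.1 hi
    rw [Finset.mem_range, Nat.lt_succ_iff] at hj
    exact (h.mono hj).trans_lt hcon

/-- the set of the `n` lowest particles -/
def lowSet (p : Equiv.Perm ℕ) (n : ℕ) : Finset ℕ := (Finset.range n).image p

lemma mem_lowSet {p : Equiv.Perm ℕ} {n i : ℕ} : i ∈ lowSet p n ↔ p.symm i < n := by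
  unfold lowSet
  rw [Finset.mem_image]
  constructor
  · rintro ⟨k, hk, rfl⟩
    simpa using hk
  · intro h
    exact ⟨p.symm i, Finset.mem_range.2 h, by simp⟩

lemma card_lowSet (p : Equiv.Perm ℕ) (n : ℕ) : (lowSet p n).card = n := by
  unfold lowSet
  rw [Finset.card_image_of_injective _ p.injective, Finset.card_range]

/-- a finite set which is strictly below its complement is the set of the lowest particles -/
lemma IsRanking.eq_lowSet {x : ℕ → ℝ} {p : Equiv.Perm ℕ} (h : IsRanking x p) {A : Finset ℕ}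
    (hA : ∀ i ∈ A, ∀ j, j ∉ A → x i < x j) : A = lowSet p A.card := by
  symm
  apply Finset.eq_of_subset_of_card_le
  · intro j hj
    rw [mem_lowSet] at hj
    by_contra hjA
    -- then all of `A` has rank `< p.symm j`
    have h1 : A.image p.symm ⊆ Finset.range (p.symm j) := by
      intro y hy
      obtain ⟨i, hi, rfl⟩ := Finset.mem_image.1 hy
      rw [Finset.mem_range, ← h.below_iff]
      exact Or.inl (hA i hi j hjA)
    have h2 := Finset.card_le_card h1
    rw [Finset.card_image_of_injective _ p.symm.injective, Finset.card_range] at h2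
    omega
  · rw [card_lowSet]

lemma sum_lowSet (g : ℕ → ℝ) (p : Equiv.Perm ℕ) (n : ℕ) :
    ∑ i ∈ lowSet p n, g (p.symm i) = ∑ k ∈ Finset.range n, g k := by
  unfold lowSet
  rw [Finset.sum_image (fun a _ b _ hab => p.injective hab)]
  simp

/-- the rank as a (possibly infinite) count -/
noncomputable def rankCount (x : ℕ → ℝ) (i : ℕ) : ℝ≥0∞ := by
  classical
  exact ∑' j, if Below x j i then 1 else 0

lemma IsRanking.rankCount_eq {x : ℕ → ℝ} {p : Equiv.Perm ℕ} (h : IsRanking x p) (i : ℕ) :
    rankCount x i = (p.symm i : ℕ) := by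
  classical
  unfold rankCount
  rw [← p.tsum_eq]
  have h1 : ∀ k, (if Below x (p k) i then (1 : ℝ≥0∞) else 0) =
      if k ∈ Finset.range (p.symm i) then 1 else 0 := by
    intro k
    have := h.below_iff (p k) i
    rw [Equiv.symm_apply_apply] at this
    simp only [this, Finset.mem_range]
  simp_rw [h1]
  rw [tsum_eq_sum (s := Finset.range (p.symm i)) (fun b hb => if_neg hb)]
  rw [Finset.sum_ite_mem, Finset.inter_self]
  simp

lemma measurable_rankCount {E : Type*} [MeasurableSpace E] {X : ℕ → E → ℝ}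
    (hX : ∀ i, Measurable (X i)) (i : ℕ) : Measurable fun e => rankCount (fun j => X j e) i := by
  classical
  unfold rankCount
  refine Measurable.ennreal_tsum fun j => ?_
  refine Measurable.ite ?_ measurable_const measurable_const
  unfold Below
  refine MeasurableSet.union (measurableSet_lt (hX j) (hX i)) ?_
  exact MeasurableSet.inter (measurableSet_eq_fun (hX j) (hX i)) (MeasurableSet.const _)

/-- pigeonhole selection of a gap which is large compared with all lower gaps -/
lemma exists_gap (y κ : ℕ → ℝ) (C : ℕ) (hC : 1 ≤ C) (h : (C : ℝ) * κ 0 ≤ y C - y 0) :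
    ∃ m k, m ≤ C ∧ 1 ≤ k ∧ k ≤ C ∧ κ m ≤ y k - y (k - 1) ∧
      ∀ j, 1 ≤ j → j < k → y j - y (j - 1) < κ (m + 1) := by
  -- first a gap of size at least `κ 0`
  have h0 : ∃ k, 1 ≤ k ∧ k ≤ C ∧ κ 0 ≤ y k - y (k - 1) := by
    by_contra hcon
    push Not at hcon
    have h1 : ∀ n, 1 ≤ n → n ≤ C → y n - y 0 < n * κ 0 := by
      intro n hn
      induction n with
      | zero => omega
      | succ n ih =>
        intro hnC
        have h2 := hcon (n + 1) (by omega) hnC
        rw [Nat.add_sub_cancel] at h2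
        rcases Nat.eq_zero_or_pos n with h3 | h3
        · subst h3
          simpa using h2
        · have := ih h3 (by omega)
          push_cast
          linarith
    have := h1 C hC le_rfl
    linarith
  -- descend
  have key : ∀ k, ∀ m, 1 ≤ k → k ≤ C → κ m ≤ y k - y (k - 1) →
      ∃ m' k', m' ≤ m + (k - 1) ∧ 1 ≤ k' ∧ k' ≤ C ∧ κ m' ≤ y k' - y (k' - 1) ∧
      ∀ j, 1 ≤ j → j < k' → y j - y (j - 1) < κ (m' + 1) := by
    intro k
    induction k using Nat.strong_induction_on with
    | _ k ih =>
      intro m hk1 hkC hkm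
      by_cases hall : ∀ j, 1 ≤ j → j < k → y j - y (j - 1) < κ (m + 1)
      · exact ⟨m, k, by omega, hk1, hkC, hkm, hall⟩
      · push Not at hall
        obtain ⟨j, hj1, hjk, hj⟩ := hall
        obtain ⟨m', k', h1, h2⟩ := ih j hjk (m + 1) hj1 (by omega) hj
        exact ⟨m', k', by omega, h2⟩
  obtain ⟨k, hk1, hkC, hk⟩ := h0
  obtain ⟨m', k', h1, h2⟩ := key k 0 hk1 hkC hk
  exact ⟨m', k', by omega, h2⟩

end Pool.Agent.H958.CBP
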