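import Mathlib
import Pool.Agent.H958.CBP.Rank

open MeasureTheory ProbabilityTheory Filter
open scoped ENNReal NNReal Topology

namespace Pool.Agent.H958.CBP

/-- the accumulated drift of particle `i` -/
noncomputable def drift (g : ℕ → ℝ) (p : ℝ≥0 → Equiv.Perm ℕ) (i : ℕ) (t : ℝ) : ℝ :=
  ∫ s in (0 : ℝ)..t, g ((p s.toNNReal).symm i)

/-- the ranks are measurable functions of time -/
def RankMeas (p : ℝ≥0 → Equiv.Perm ℕ) : Prop := ∀ i, Measurable fun s : ℝ≥0 => (p s).symm i

lemma rankMeas_of_ranking {x : ℕ → ℝ≥0 → ℝ} {p : ℝ≥0 → Equiv.Perm ℕ}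
    (hx : ∀ i, Continuous (x i)) (hp : ∀ t, IsRanking (fun i => x i t) (p t)) : RankMeas p := by
  intro i
  refine measurable_to_countable' fun k => ?_
  have h1 := measurable_rankCount (fun i => (hx i).measurable) i
  have : (fun s : ℝ≥0 => (p s).symm i) ⁻¹' {k} =
      (fun e => rankCount (fun j => x j e) i) ⁻¹' {(k : ℝ≥0∞)} := by
    ext s
    simp only [Set.mem_preimage, Set.mem_singleton_iff, (hp s).rankCount_eq i]
    norm_cast
  rw [this]
  exact h1 (measurableSet_singleton _)

variable {g : ℕ → ℝ} {p : ℝ≥0 → Equiv.Perm ℕ} {M : ℝ}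

lemma RankMeas.integrable (hp : RankMeas p) (hM : ∀ k, |g k| ≤ M) (i : ℕ) (s t : ℝ) :
    IntervalIntegrable (fun s : ℝ => g ((p s.toNNReal).symm i)) volume s t := by
  have hm : Measurable fun s : ℝ => g ((p s.toNNReal).symm i) :=
    (measurable_from_nat (f := g)).comp ((hp i).comp measurable_real_toNNReal)
  rw [intervalIntegrable_iff]
  refine Measure.integrableOn_of_bounded (M := M) ?_ hm.aestronglyMeasurable ?_
  · simp
  · filter_upwards with s
    exact hM _

lemma drift_sub (hp : RankMeas p) (hM : ∀ k, |g k| ≤ M) (i : ℕ) (s t : ℝ) :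
    drift g p i t - drift g p i s = ∫ u in s..t, g ((p u.toNNReal).symm i) := by
  unfold drift
  rw [intervalIntegral.integral_interval_sub_left (hp.integrable hM i 0 t)
    (hp.integrable hM i 0 s)]

lemma abs_drift_sub_le (hp : RankMeas p) (hM : ∀ k, |g k| ≤ M) (i : ℕ) {s t : ℝ} (hst : s ≤ t) :
    |drift g p i t - drift g p i s| ≤ M * (t - s) := by
  rw [drift_sub hp hM]
  have := intervalIntegral.norm_integral_le_of_norm_le_const (a := s) (b := t) (C := M)
    (f := fun u => g ((p u.toNNReal).symm i)) (fun x _ => hM _)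
  rwa [abs_of_nonneg (sub_nonneg.2 hst)] at this

lemma drift_zero (i : ℕ) : drift g p i 0 = 0 := by
  unfold drift; simp

lemma abs_drift_le (hp : RankMeas p) (hM : ∀ k, |g k| ≤ M) (i : ℕ) {t : ℝ} (ht : 0 ≤ t) :
    |drift g p i t| ≤ M * t := by
  have := abs_drift_sub_le hp hM i ht
  simpa [drift_zero] using this

/-- the total drift of the lowest particles -/
lemma sum_drift_lowSet (hp : RankMeas p) (hM : ∀ k, |g k| ≤ M) {A : Finset ℕ} {s t : ℝ}
    (hst : s ≤ t) (h : ∀ u, s ≤ u → u ≤ t → A = lowSet (p u.toNNReal) A.card) :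
    ∑ i ∈ A, (drift g p i t - drift g p i s) =
      (t - s) * ∑ k ∈ Finset.range A.card, g k := by
  simp_rw [drift_sub hp hM]
  rw [← intervalIntegral.integral_finsetSum (fun i _ => hp.integrable hM i s t)]
  have : Set.EqOn (fun u : ℝ => ∑ i ∈ A, g ((p u.toNNReal).symm i))
      (fun _ => ∑ k ∈ Finset.range A.card, g k) (Set.uIcc s t) := by
    intro u hu
    rw [Set.uIcc_of_le hst] at hu
    have h1 := h u hu.1 hu.2
    simp only
    conv_lhs => rw [h1]
    exact sum_lowSet g (p u.toNNReal) A.card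
  rw [intervalIntegral.integral_congr this]
  simp

/-- the drift budget: few particles have a large accumulated drift -/
lemma drift_budget (hp : RankMeas p) (hM : ∀ k, |g k| ≤ M) {ε : ℝ} {K : ℕ}
    (hK : ∀ k, K ≤ k → |g k| ≤ ε) (hε : 0 ≤ ε) {A : Finset ℕ} {t : ℝ} (ht : 0 < t)
    (hA : ∀ i ∈ A, 2 * ε * t < |drift g p i t|) : (A.card : ℝ) * ε ≤ K * M := by
  have hM0 : 0 ≤ M := (abs_nonneg _).trans (hM 0)
  have h1 : ∑ i ∈ A, |drift g p i t| ≤ (A.card * ε + K * M) * t := by
    have h2 : ∀ i ∈ A, |drift g p i t| ≤ ∫ u in (0 : ℝ)..t, |g ((p u.toNNReal).symm i)| :=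
      fun i _ => intervalIntegral.abs_integral_le_integral_abs ht.le
    refine (Finset.sum_le_sum h2).trans ?_
    rw [← intervalIntegral.integral_finsetSum (fun i _ => (hp.integrable hM i 0 t).abs)]
    have h3 : ∀ u : ℝ, ∑ i ∈ A, |g ((p u.toNNReal).symm i)| ≤ A.card * ε + K * M := by
      intro u
      classical
      have h4 : ∀ i ∈ A, |g ((p u.toNNReal).symm i)| ≤
          ε + (if (p u.toNNReal).symm i < K then M else 0) := by
        intro i _
        split_ifs with h5
        · linarith [hM ((p u.toNNReal).symm i)]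
        · linarith [hK _ (not_lt.1 h5)]
      refine (Finset.sum_le_sum h4).trans ?_
      rw [Finset.sum_add_distrib, Finset.sum_const, nsmul_eq_mul]
      gcongr
      rw [← Finset.sum_filter, Finset.sum_const, nsmul_eq_mul]
      gcongr
      have h6 : (A.filter fun i => (p u.toNNReal).symm i < K) ⊆ lowSet (p u.toNNReal) K := by
        intro i hi
        rw [mem_lowSet]
        exact (Finset.mem_filter.1 hi).2
      have h7 := Finset.card_le_card h6
      rwa [card_lowSet] at h7
    have h8 : IntervalIntegrable (fun u : ℝ => ∑ i ∈ A, |g ((p u.toNNReal).symm i)|) volume 0 t := by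
      have := IntervalIntegrable.sum A (fun i _ => (hp.integrable hM i 0 t).abs)
      have e : (∑ i ∈ A, fun u : ℝ => |g ((p u.toNNReal).symm i)|) =
          fun u : ℝ => ∑ i ∈ A, |g ((p u.toNNReal).symm i)| := by
        funext u
        rw [Finset.sum_apply]
      rw [e] at this
      exact this
    calc ∫ u in (0 : ℝ)..t, ∑ i ∈ A, |g ((p u.toNNReal).symm i)|
        ≤ ∫ u in (0 : ℝ)..t, (A.card * ε + K * M) :=
          intervalIntegral.integral_mono_on ht.le h8 (by simp) (fun u _ => h3 u)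
      _ = (A.card * ε + K * M) * t := by simp; ring
  have h2 : (A.card : ℝ) * (2 * ε * t) ≤ ∑ i ∈ A, |drift g p i t| := by
    rw [← nsmul_eq_mul, ← Finset.sum_const]
    exact Finset.sum_le_sum fun i hi => (hA i hi).le
  have h3 : ((A.card : ℝ) * ε) * t ≤ (K * M) * t := by nlinarith
  exact le_of_mul_le_mul_right h3 ht

end Pool.Agent.H958.CBP
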