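import Mathlib
import Pool.Agent.H958.CBP.Drift

open MeasureTheory ProbabilityTheory Filter
open scoped ENNReal NNReal Topology

namespace Pool.Agent.H958.CBP

/-- a deterministic path of the system -/
structure Path (g : ℕ → ℝ) (M : ℝ) (x w : ℕ → ℝ≥0 → ℝ) (p : ℝ≥0 → Equiv.Perm ℕ) : Prop where
  cont : ∀ i, Continuous (x i)
  rank : ∀ t, IsRanking (fun i => x i t) (p t)
  eq : ∀ i t, x i t = x i 0 + drift g p i t + w i t
  bdd : ∀ k, |g k| ≤ M

variable {g : ℕ → ℝ} {M : ℝ} {x w : ℕ → ℝ≥0 → ℝ} {p : ℝ≥0 → Equiv.Perm ℕ}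

lemma Path.meas (h : Path g M x w p) : RankMeas p := rankMeas_of_ranking h.cont h.rank

lemma Path.M_nonneg (h : Path g M x w p) : 0 ≤ M := (abs_nonneg _).trans (h.bdd 0)

/-- displacement of one particle -/
lemma Path.move (h : Path g M x w p) (i : ℕ) {s t : ℝ≥0} (hst : s ≤ t) :
    |x i t - x i s| ≤ M * (t - s) + |w i t - w i s| := by
  have h1 := abs_drift_sub_le h.meas h.bdd i (s := s) (t := t) (by exact_mod_cast hst)
  have h2 : x i t - x i s = (drift g p i t - drift g p i s) + (w i t - w i s) := by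
    rw [h.eq i t, h.eq i s]; ring
  rw [h2]
  exact (abs_add_le _ _).trans (by linarith)

/-- a well separated cluster stays the cluster of the lowest particles -/
lemma Path.separation (h : Path g M x w p) {s t : ℝ≥0} {k : ℕ} (hk : 1 ≤ k) {I d c : ℝ}
    (hd : 0 ≤ d)
    (hmove : ∀ i : ℕ, (i : ℝ) ≤ I → ∀ u, s ≤ u → u ≤ t → |x i u - x i t| ≤ d)
    (hfar : ∀ i : ℕ, I < i → ∀ u, u ≤ t → c < x i u)
    (hc : x (p t (k - 1)) t + d ≤ c)
    (hgap : 2 * d < x (p t k) t - x (p t (k - 1)) t) (u : ℝ≥0) (hsu : s ≤ u) (hut : u ≤ t) :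
    lowSet (p t) k = lowSet (p u) k := by
  have h1 : ∀ i ∈ lowSet (p t) k, x i t ≤ x (p t (k - 1)) t ∧ (i : ℝ) ≤ I := by
    intro i hi
    rw [mem_lowSet] at hi
    have h2 : x i t ≤ x (p t (k - 1)) t :=
      (h.rank t).le_of_rank_le (x := fun i => x i t) (by omega)
    refine ⟨h2, ?_⟩
    by_contra hcon
    push Not at hcon
    have := hfar i hcon t le_rfl
    linarith
  have key : ∀ i ∈ lowSet (p t) k, ∀ j, j ∉ lowSet (p t) k → x i u < x j u := by
    intro i hi j hj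
    obtain ⟨hi1, hi2⟩ := h1 i hi
    have hiu := hmove i hi2 u hsu hut
    rw [abs_le] at hiu
    rw [mem_lowSet, not_lt] at hj
    have hj1 : x (p t k) t ≤ x j t := (h.rank t).ge_of_rank_ge (x := fun i => x i t) hj
    by_cases hjI : (j : ℝ) ≤ I
    · have hju := hmove j hjI u hsu hut
      rw [abs_le] at hju
      linarith
    · push Not at hjI
      have := hfar j hjI u hut
      linarith
  have := (h.rank u).eq_lowSet (x := fun i => x i u) key
  rwa [card_lowSet] at this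

/-- the displacement of the bottom particle during a period in which the `k` lowest particles
stay the same -/
lemma Path.cluster_ineq (h : Path g M x w p) {s t : ℝ≥0} (hst : s ≤ t) {k : ℕ} (hk : 1 ≤ k)
    (hA : ∀ u, s ≤ u → u ≤ t → lowSet (p t) k = lowSet (p u) k) {ζ : ℝ}
    (hw : ∀ i, (p s).symm i < k → |w i t - w i s| ≤ ζ) :
    x (p s 0) s + (t - s) * ((∑ j ∈ Finset.range k, g j) / k) - ζ ≤ x (p t (k - 1)) t := by
  set A := lowSet (p t) k with hAdef
  have hcard : A.card = k := card_lowSet _ _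
  have hst' : (s : ℝ) ≤ t := by exact_mod_cast hst
  have hdrift : ∑ i ∈ A, (drift g p i t - drift g p i s) =
      (t - s) * ∑ k ∈ Finset.range A.card, g k := by
    refine sum_drift_lowSet h.meas h.bdd hst' ?_
    intro u hsu hut
    rw [hcard]
    refine hA u.toNNReal ?_ ?_
    · exact NNReal.le_toNNReal_of_coe_le hsu
    · exact Real.toNNReal_le_iff_le_coe.2 hut
  rw [hcard] at hdrift
  have h1 : ∑ i ∈ A, (x i t - x i s) =
      (t - s) * ∑ k ∈ Finset.range k, g k + ∑ i ∈ A, (w i t - w i s) := by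
    rw [← hdrift, ← Finset.sum_add_distrib]
    refine Finset.sum_congr rfl fun i _ => ?_
    rw [h.eq i t, h.eq i s]; ring
  have h2 : -(k * ζ) ≤ ∑ i ∈ A, (w i t - w i s) := by
    have : ∑ i ∈ A, (-ζ) ≤ ∑ i ∈ A, (w i t - w i s) := by
      refine Finset.sum_le_sum fun i hi => ?_
      have hi' : (p s).symm i < k := by
        rw [hA s le_rfl hst] at hi
        exact mem_lowSet.1 hi
      have := abs_le.1 (hw i hi')
      linarith
    rw [Finset.sum_const, hcard, nsmul_eq_mul] at this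
    linarith
  have h3 : ∑ i ∈ A, (x i t - x i s) ≤ k * (x (p t (k - 1)) t - x (p s 0) s) := by
    have : ∑ i ∈ A, (x i t - x i s) ≤ ∑ i ∈ A, (x (p t (k - 1)) t - x (p s 0) s) := by
      refine Finset.sum_le_sum fun i hi => ?_
      rw [hAdef, mem_lowSet] at hi
      have h4 : x i t ≤ x (p t (k - 1)) t :=
        (h.rank t).le_of_rank_le (x := fun i => x i t) (by omega)
      have h5 : x (p s 0) s ≤ x i s := (h.rank s).lowest (x := fun i => x i s) i
      linarith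
    rwa [Finset.sum_const, hcard, nsmul_eq_mul] at this
  have hk0 : (0 : ℝ) < k := by exact_mod_cast hk
  have h4 : (t - s) * ∑ k ∈ Finset.range k, g k - k * ζ ≤
      k * (x (p t (k - 1)) t - x (p s 0) s) := by linarith
  have h5 : ((t : ℝ) - s) * ((∑ j ∈ Finset.range k, g j) / k) =
      ((t - s) * ∑ k ∈ Finset.range k, g k) / k := by ring
  rw [h5]
  have h6 : ((t - s) * ∑ k ∈ Finset.range k, g k) / k ≤ x (p t (k - 1)) t - x (p s 0) s + ζ := by
    rw [div_le_iff₀ hk0]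
    linarith
  linarith

lemma sum_gaps_le {y : ℕ → ℝ} {c : ℝ} (k : ℕ) (hk : 1 ≤ k) (hc : 0 ≤ c)
    (h : ∀ j, 1 ≤ j → j < k → y j - y (j - 1) < c) : y (k - 1) - y 0 ≤ (k : ℝ) * c := by
  have h1 : ∀ n, n < k → y n - y 0 ≤ n * c := by
    intro n
    induction n with
    | zero => intro _; simp
    | succ n ih =>
      intro hn
      have h2 := h (n + 1) (by omega) hn
      rw [Nat.add_sub_cancel] at h2
      have h3 := ih (by omega)
      push_cast
      linarith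
  have h2 := h1 (k - 1) (by omega)
  have h3 : ((k - 1 : ℕ) : ℝ) ≤ k := by exact_mod_cast Nat.sub_le k 1
  nlinarith

/-- The parameters of the multiscale argument. -/
structure Params (M η : ℝ) (C : ℕ) (κ r : ℕ → ℝ) (ζ : ℝ) : Prop where
  C_pos : 1 ≤ C
  eta_pos : 0 < η
  kappa_pos : ∀ m, 0 < κ m
  kappa_le : ∀ m, κ m ≤ 1
  r_pos : ∀ m, 0 < r m
  r_le : ∀ m, r m ≤ 1 / 2
  r_small : ∀ m, M * r m ≤ κ m / 8
  kappa_succ : ∀ m, C * κ (m + 1) ≤ η * r m / 8
  zeta_pos : 0 < ζ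
  zeta_le : ∀ m, m ≤ C → ζ ≤ η * r m / 8

/-- the excess of the bottom particle -/
noncomputable def exc (a : ℝ) (x : ℕ → ℝ≥0 → ℝ) (p : ℝ≥0 → Equiv.Perm ℕ) (n : ℕ) : ℝ :=
  -(x (p n 0) n) - a / 2 * n

/-- One step back in time of the multiscale argument. -/
lemma Path.step (h : Path g M x w p) {η a : ℝ} {C : ℕ} {κ r : ℕ → ℝ} {ζ : ℝ}
    (hP : Params M η C κ r ζ)
    (hg : ∀ k : ℕ, 1 ≤ k → η - a / 2 ≤ (∑ j ∈ Finset.range k, g j) / k)
    {n : ℕ} (hn : ∀ m, m ≤ C → 2 ≤ r m * n) {I : ℝ}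
    (E3 : ∀ m, m ≤ C → ∀ i : ℕ, (i : ℝ) ≤ I → ∀ u : ℝ≥0, u ≤ (⌊r m * n⌋₊ : ℕ) →
      |w i (((n - ⌊r m * n⌋₊ : ℕ) : ℝ≥0) + u) - w i ((n - ⌊r m * n⌋₊ : ℕ) : ℝ≥0)| ≤ κ m / 8 * n)
    (E4 : ∀ m, m ≤ C → ∀ i : ℕ, (p ((n - ⌊r m * n⌋₊ : ℕ) : ℝ≥0)).symm i < C →
      ∀ u : ℝ≥0, u ≤ (⌊r m * n⌋₊ : ℕ) →
      |w i (((n - ⌊r m * n⌋₊ : ℕ) : ℝ≥0) + u) - w i ((n - ⌊r m * n⌋₊ : ℕ) : ℝ≥0)| ≤ ζ * n)
    (hfar : ∀ i : ℕ, I < i → ∀ u : ℝ≥0, u ≤ n → (2 * M + 2) * n < x i u)
    (hnear : x (p n C) n ≤ (M + 1) * n)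
    (hgap : C * (κ 0 * n) ≤ x (p n C) n - x (p n 0) n) :
    ∃ s : ℕ, s < n ∧ n ≤ 2 * s ∧ exc a x p n + η / 2 * ((n : ℝ) - s) ≤ exc a x p s := by
  have hM0 := h.M_nonneg
  obtain ⟨m, k, hmC, hk1, hkC, hgk, hlow⟩ := exists_gap (fun k => x (p n k) n)
    (fun m => κ m * n) C hP.C_pos hgap
  have hn0 : (0 : ℝ) < n := by
    have h1 := hn 0 (Nat.zero_le _)
    have h2 := hP.r_pos 0
    by_contra hcon
    push Not at hcon
    have : r 0 * (n : ℝ) ≤ 0 := mul_nonpos_of_nonneg_of_nonpos h2.le hcon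
    linarith
  -- the lag
  set ℓ : ℕ := ⌊r m * n⌋₊ with hℓ
  have hℓ1 : (ℓ : ℝ) ≤ r m * n := Nat.floor_le (mul_nonneg (hP.r_pos m).le hn0.le)
  have hℓ2 : r m * n < ℓ + 1 := Nat.lt_floor_add_one _
  have hrn := hn m hmC
  have hℓ3 : r m * n / 2 ≤ ℓ := by linarith
  have hℓn : ℓ ≤ n := by
    have h1 : (ℓ : ℝ) ≤ n := by
      have := hP.r_le m
      nlinarith
    exact_mod_cast h1
  set s : ℕ := n - ℓ with hs
  have hsn : (s : ℝ) = n - ℓ := by rw [hs, Nat.cast_sub hℓn]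
  have hsn' : (s : ℝ≥0) + ℓ = n := by
    have : s + ℓ = n := by omega
    exact_mod_cast this
  have hsle : (s : ℝ≥0) ≤ (n : ℝ≥0) := by
    rw [← hsn']; exact le_self_add
  have hκ0 := hP.kappa_pos m
  have hκ1 := hP.kappa_le m
  have hr2 := hP.r_small m
  -- displacement bound
  have hmove : ∀ i : ℕ, (i : ℝ) ≤ I → ∀ u : ℝ≥0, (s : ℝ≥0) ≤ u → u ≤ n →
      |x i u - x i n| ≤ 3 / 8 * (κ m * n) := by
    intro i hi u hsu hun
    have h1 := h.move i hun
    rw [abs_sub_comm (x i n)] at h1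
    have h2 : |w i n - w i u| ≤ 2 * (κ m / 8 * n) := by
      have e1 := E3 m hmC i hi (u - s) (by
        rw [← hℓ]
        rw [tsub_le_iff_right, add_comm, hsn']
        exact hun)
      have e2 := E3 m hmC i hi ℓ le_rfl
      rw [← hs] at e1 e2
      rw [add_tsub_cancel_of_le hsu] at e1
      rw [hsn'] at e2
      have e3 : w i n - w i u = (w i n - w i s) - (w i u - w i s) := by ring
      rw [e3]
      refine (abs_sub _ _).trans ?_
      linarith
    have h3 : M * ((n : ℝ) - u) ≤ κ m / 8 * n := by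
      have h4 : (s : ℝ) ≤ u := by exact_mod_cast hsu
      have h5 : (n : ℝ) - u ≤ r m * n := by rw [hsn] at h4; linarith
      calc M * ((n : ℝ) - u) ≤ M * (r m * n) := by gcongr
        _ = (M * r m) * n := by ring
        _ ≤ κ m / 8 * n := by gcongr
    have h6 : (((n : ℕ) : ℝ≥0) : ℝ) = (n : ℝ) := by simp
    rw [h6] at h1
    linarith
  have hkm1 : x (p n (k - 1)) n ≤ (M + 1) * n :=
    ((h.rank n).mono (x := fun i => x i n) (by omega : k - 1 ≤ C)).trans hnear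
  have hκn : 0 < κ m * n := by positivity
  have hsep := h.separation (s := s) (t := n) hk1 (I := I) (d := 3 / 8 * (κ m * n))
    (c := (2 * M + 2) * n) (by positivity) hmove hfar (by nlinarith) (by
      linarith)
  have hci := h.cluster_ineq hsle hk1 hsep (ζ := ζ * n) (by
    intro i hi
    have e2 := E4 m hmC i (by rw [← hℓ, ← hs]; omega) ℓ le_rfl
    rw [← hℓ, ← hs, hsn'] at e2
    exact e2)
  have hlowsum := sum_gaps_le (y := fun k => x (p n k) n) (c := κ (m + 1) * n) k hk1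
    (by have := hP.kappa_pos (m + 1); positivity) hlow
  refine ⟨s, ?_, ?_, ?_⟩
  · have : (s : ℝ) < n := by rw [hsn]; nlinarith [hP.r_pos m]
    exact_mod_cast this
  · have h1 : (n : ℝ) ≤ 2 * s := by
      rw [hsn]
      have := hP.r_le m
      nlinarith
    exact_mod_cast h1
  · unfold exc
    have h1 := hg k hk1
    have h2 : ((n : ℝ) - s) * (η - a / 2) ≤ ((n : ℝ) - s) * ((∑ j ∈ Finset.range k, g j) / k) := by
      apply mul_le_mul_of_nonneg_left h1
      rw [hsn]; linarith [(Nat.cast_nonneg ℓ : (0 : ℝ) ≤ ℓ)]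
    have h3 : (((n : ℕ) : ℝ≥0) : ℝ) = (n : ℝ) := by simp
    have h4 : (((s : ℕ) : ℝ≥0) : ℝ) = (s : ℝ) := by simp
    rw [h3, h4] at hci
    have h5 : (k : ℝ) * (κ (m + 1) * n) ≤ η * r m / 8 * n := by
      have e1 : (k : ℝ) ≤ C := by exact_mod_cast hkC
      have e2 := hP.kappa_pos (m + 1)
      calc (k : ℝ) * (κ (m + 1) * n) ≤ C * (κ (m + 1) * n) := by gcongr
        _ = (C * κ (m + 1)) * n := by ring
        _ ≤ η * r m / 8 * n := by gcongr; exact hP.kappa_succ m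
    have h6 : ζ * n ≤ η * r m / 8 * n := by
      have := hP.zeta_le m hmC
      gcongr
    have h7 : η * r m / 8 * n ≤ η / 4 * ℓ := by
      have : η / 4 * (r m * n / 2) ≤ η / 4 * ℓ := by
        have := hP.eta_pos
        gcongr
      linarith
    have h8 : (n : ℝ) - s = ℓ := by rw [hsn]; ring
    have h9 : (s : ℝ) = n - ℓ := hsn
    rw [h8] at h2 hci ⊢
    rw [h9]
    nlinarith


/-- iterating the step backwards in time bounds the excess -/
lemma iterate_step {U : ℕ → ℝ} {R η : ℝ} (hR : 0 < R) (hη : 0 < η) {T : ℕ}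
    (hstep : ∀ n, T ≤ n → R * n ≤ U n →
      ∃ s : ℕ, s < n ∧ n ≤ 2 * s ∧ U n + η / 2 * ((n : ℝ) - s) ≤ U s) :
    ∀ᶠ n : ℕ in atTop, U n < R * n := by
  have key : ∀ n, T ≤ n → R * n ≤ U n →
      ∃ s : ℕ, s ≤ 2 * T ∧ U n + η / 2 * n ≤ U s + η / 2 * s := by
    intro n
    induction n using Nat.strong_induction_on with
    | _ n ih =>
      intro hn hU
      by_cases h2 : n ≤ 2 * T
      · exact ⟨n, h2, le_rfl⟩
      · obtain ⟨s, hsn, hns, hUs⟩ := hstep n hn hU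
        have hsn' : (s : ℝ) < n := by exact_mod_cast hsn
        have h3 : R * s ≤ U s := by
          have : R * (s : ℝ) ≤ R * n := by gcongr
          nlinarith
        obtain ⟨s', hs', hUs'⟩ := ih s hsn (by omega) h3
        exact ⟨s', hs', by linarith⟩
  set B : ℝ := ∑ s ∈ Finset.range (2 * T + 1), |U s + η / 2 * s| with hB
  have hB' : ∀ s : ℕ, s ≤ 2 * T → U s + η / 2 * s ≤ B := by
    intro s hs
    refine (le_abs_self _).trans ?_
    exact Finset.single_le_sum (f := fun s : ℕ => |U s + η / 2 * s|)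
      (fun i _ => abs_nonneg _) (Finset.mem_range.2 (by omega))
  have hev : ∀ᶠ n : ℕ in atTop, B < R * n := by
    have : Tendsto (fun n : ℕ => R * (n : ℝ)) atTop atTop :=
      tendsto_natCast_atTop_atTop.const_mul_atTop hR
    exact this.eventually_gt_atTop B
  filter_upwards [hev, eventually_ge_atTop T] with n hn hnT
  by_contra hcon
  push Not at hcon
  obtain ⟨s, hs, hUs⟩ := key n hnT hcon
  have h1 := hB' s hs
  have h2 : 0 ≤ η / 2 * (n : ℝ) := by positivity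
  linarith

lemma exists_params {M η R Γ : ℝ} {C : ℕ} (hM : 0 ≤ M) (hη : 0 < η) (hC : 1 ≤ C) (hR : 0 < R)
    (hΓ : 0 ≤ Γ) : ∃ κ r : ℕ → ℝ, ∃ ζ, Params M η C κ r ζ ∧ C * κ 0 ≤ R ∧
      ∀ m, 128 * (Γ + 1) ^ 2 * r m ≤ κ m ^ 2 := by
  have hC0 : (0 : ℝ) < C := by exact_mod_cast hC
  set c2 : ℝ := min (1 / (128 * (Γ + 1) ^ 2)) (1 / (8 * (M + 1))) with hc2
  have hc2pos : 0 < c2 := by
    rw [hc2]; apply lt_min <;> positivity
  have hc2a : c2 ≤ 1 / (128 * (Γ + 1) ^ 2) := min_le_left _ _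
  have hc2b : c2 ≤ 1 / (8 * (M + 1)) := min_le_right _ _
  have hc2c : c2 ≤ 1 / 8 := by
    refine hc2b.trans ?_
    apply one_div_le_one_div_of_le (by norm_num)
    linarith
  set c3 : ℝ := min 1 (η * c2 / (8 * C)) with hc3
  have hc3pos : 0 < c3 := by
    rw [hc3]; apply lt_min <;> positivity
  set κ : ℕ → ℝ := fun m => Nat.rec (min 1 (R / C)) (fun _ y => c3 * y ^ 2) m with hκ
  have hκ0 : κ 0 = min 1 (R / C) := rfl
  have hκs : ∀ m, κ (m + 1) = c3 * κ m ^ 2 := fun m => rfl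
  have hκpos : ∀ m, 0 < κ m := by
    intro m
    induction m with
    | zero => rw [hκ0]; apply lt_min <;> positivity
    | succ m ih => rw [hκs]; positivity
  have hκle : ∀ m, κ m ≤ 1 := by
    intro m
    induction m with
    | zero => rw [hκ0]; exact min_le_left _ _
    | succ m ih =>
      rw [hκs]
      have h1 : c3 ≤ 1 := min_le_left _ _
      have h2 : κ m ^ 2 ≤ 1 := pow_le_one₀ (hκpos m).le ih
      exact mul_le_one₀ h1 (by positivity) h2
  set r : ℕ → ℝ := fun m => c2 * κ m ^ 2 with hr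
  have hrpos : ∀ m, 0 < r m := fun m => by
    have := hκpos m
    simp only [hr]; positivity
  obtain ⟨ζ, hζpos, hζle⟩ : ∃ ζ : ℝ, 0 < ζ ∧ ∀ m, m ≤ C → ζ ≤ η * r m / 8 := by
    refine ⟨(Finset.range (C + 1)).inf' Finset.nonempty_range_add_one
      (fun m => η * r m / 8), ?_, ?_⟩
    · refine (Finset.lt_inf'_iff _).2 ?_
      intro m _
      have := hrpos m
      positivity
    · intro m hm
      exact Finset.inf'_le _ (Finset.mem_range.2 (by omega))
  refine ⟨κ, r, ζ, ⟨hC, hη, hκpos, hκle, hrpos, ?_, ?_, ?_, hζpos, hζle⟩, ?_, ?_⟩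
  · intro m
    have h2 : κ m ^ 2 ≤ 1 := pow_le_one₀ (hκpos m).le (hκle m)
    have h3 : 0 ≤ κ m ^ 2 := by positivity
    simp only [hr]
    nlinarith
  · intro m
    have h1 : M * c2 ≤ 1 / 8 := by
      calc M * c2 ≤ M * (1 / (8 * (M + 1))) := by gcongr
        _ ≤ 1 / 8 := by
          rw [mul_one_div, div_le_div_iff₀ (by positivity) (by norm_num)]
          linarith
    have h2 : κ m ^ 2 ≤ κ m := by nlinarith [hκpos m, hκle m]
    have h3 : 0 < κ m := hκpos m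
    simp only [hr]
    calc M * (c2 * κ m ^ 2) = (M * c2) * κ m ^ 2 := by ring
      _ ≤ (1 / 8) * κ m := by gcongr
      _ = κ m / 8 := by ring
  · intro m
    have h3 : 0 < κ m := hκpos m
    rw [hκs]
    simp only [hr]
    have h4 : c3 ≤ η * c2 / (8 * C) := min_le_right _ _
    calc (C : ℝ) * (c3 * κ m ^ 2) ≤ C * (η * c2 / (8 * C) * κ m ^ 2) := by gcongr
      _ = η * (c2 * κ m ^ 2) / 8 := by field_simp
  · rw [hκ0]
    calc (C : ℝ) * min 1 (R / C) ≤ C * (R / C) := by gcongr; exact min_le_right _ _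
      _ = R := by field_simp
  · intro m
    simp only [hr]
    have h3 : 0 < κ m := hκpos m
    calc 128 * (Γ + 1) ^ 2 * (c2 * κ m ^ 2) ≤
        128 * (Γ + 1) ^ 2 * (1 / (128 * (Γ + 1) ^ 2) * κ m ^ 2) := by gcongr
      _ = κ m ^ 2 := by field_simp

end Pool.Agent.H958.CBP
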