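import Mathlib

open MeasureTheory ProbabilityTheory Filter
open scoped ENNReal NNReal Topology

namespace Pool.Agent.H958.CBP

variable {Ω : Type*} {mΩ : MeasurableSpace Ω}

/-- `W` is a standard Brownian motion relative to the filtration `ℱ`: it is adapted, it is a
Brownian motion (Mathlib's `IsBrownianReal`), and for `s ≤ t` the increment `W t - W s` is
independent of `ℱ s`. -/
structure IsFiltBM (ℱ : Filtration ℝ≥0 mΩ) (W : ℝ≥0 → Ω → ℝ) (P : Measure Ω) : Prop where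
  adapted : ∀ t, Measurable[ℱ t] (W t)
  brownian : IsBrownianReal W P
  indep : ∀ s t, s ≤ t → Indep (MeasurableSpace.comap (fun ω => W t ω - W s ω) inferInstance)
    (ℱ s) P

variable {ℱ : Filtration ℝ≥0 mΩ} {W : ℝ≥0 → Ω → ℝ} {P : Measure Ω}

lemma IsFiltBM.measurable (h : IsFiltBM ℱ W P) (t : ℝ≥0) : Measurable (W t) :=
  (h.adapted t).mono (ℱ.le t) le_rfl

lemma IsFiltBM.hasLaw_incr (h : IsFiltBM ℱ W P) {s t : ℝ≥0} (hst : s ≤ t) :
    HasLaw (fun ω => W t ω - W s ω) (gaussianReal 0 (t - s)) P := by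
  have := h.brownian.toIsPreBrownianReal.hasLaw_sub t s
  have h2 : nndist (t : ℝ) (s : ℝ) = t - s := by
    apply NNReal.eq
    rw [coe_nndist, Real.dist_eq, NNReal.coe_sub hst, abs_of_nonneg]
    exact sub_nonneg.2 (by exact_mod_cast hst)
  rw [← h2]
  exact this

lemma IsFiltBM.isProb (h : IsFiltBM ℱ W P) : IsProbabilityMeasure P :=
  h.brownian.toIsPreBrownianReal.isGaussianProcess.isProbabilityMeasure

/-- the exponential increment -/
noncomputable def expIncr (W : ℝ≥0 → Ω → ℝ) (θ : ℝ) (s t : ℝ≥0) (ω : Ω) : ℝ :=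
  Real.exp (θ * (W t ω - W s ω) - θ ^ 2 * ((t : ℝ) - s) / 2)

lemma IsFiltBM.integral_expIncr (h : IsFiltBM ℱ W P) (θ : ℝ) {s t : ℝ≥0} (hst : s ≤ t) :
    ∫ ω, expIncr W θ s t ω ∂P = 1 := by
  have hl := h.hasLaw_incr hst
  have h1 : P.map (fun ω => W t ω - W s ω) = gaussianReal 0 (t - s) := hl.map_eq
  have h2 := mgf_gaussianReal h1 θ
  unfold mgf at h2
  have h3 : ∀ ω, expIncr W θ s t ω =
      Real.exp (- (θ ^ 2 * ((t : ℝ) - s) / 2)) * Real.exp (θ * (W t ω - W s ω)) := by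
    intro ω; unfold expIncr; rw [← Real.exp_add]; congr 1; ring
  simp_rw [h3]
  rw [integral_const_mul, h2, ← Real.exp_add, NNReal.coe_sub hst]
  simp only [Real.exp_eq_one_iff]
  ring

lemma IsFiltBM.integrable_expIncr (h : IsFiltBM ℱ W P) (θ : ℝ) {s t : ℝ≥0} (hst : s ≤ t) :
    Integrable (expIncr W θ s t) P := by
  by_contra hcon
  have := h.integral_expIncr θ hst
  rw [integral_undef hcon] at this
  exact zero_ne_one this


/-- the discrete filtration `ℱ (s + k h)` -/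
def gridFilt (ℱ : Filtration ℝ≥0 mΩ) (s h : ℝ≥0) : Filtration ℕ mΩ where
  seq k := ℱ (s + k * h)
  mono' i j hij := ℱ.mono (by gcongr)
  le' k := ℱ.le _

/-- the discrete exponential martingale started at `s` on the event `B` -/
noncomputable def gridMart (W : ℝ≥0 → Ω → ℝ) (θ : ℝ) (s h : ℝ≥0) (B : Set Ω) (k : ℕ) (ω : Ω) : ℝ :=
  B.indicator (fun _ => (1 : ℝ)) ω * expIncr W θ s (s + k * h) ω

lemma expIncr_nonneg (θ : ℝ) (s t : ℝ≥0) (ω : Ω) : 0 ≤ expIncr W θ s t ω := (Real.exp_pos _).le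

lemma expIncr_mul (θ : ℝ) (s t u : ℝ≥0) (ω : Ω) :
    expIncr W θ s t ω * expIncr W θ t u ω = expIncr W θ s u ω := by
  unfold expIncr
  rw [← Real.exp_add]
  congr 1
  ring

lemma gridMart_zero (θ : ℝ) (s h : ℝ≥0) (B : Set Ω) :
    gridMart W θ s h B 0 = B.indicator (fun _ => (1 : ℝ)) := by
  funext ω
  simp [gridMart, expIncr]

lemma gridMart_succ (θ : ℝ) (s h : ℝ≥0) (B : Set Ω) (k : ℕ) (ω : Ω) :
    gridMart W θ s h B (k + 1) ω =
      gridMart W θ s h B k ω * expIncr W θ (s + k * h) (s + (k + 1 : ℕ) * h) ω := by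
  unfold gridMart
  rw [mul_assoc, expIncr_mul]

lemma IsFiltBM.adapted_expIncr (h : IsFiltBM ℱ W P) (θ : ℝ) {s t : ℝ≥0} (hst : s ≤ t) :
    Measurable[ℱ t] (expIncr W θ s t) := by
  have h1 : Measurable[ℱ t] (W t) := h.adapted t
  have h2 : Measurable[ℱ t] (W s) := (h.adapted s).mono (ℱ.mono hst) le_rfl
  unfold expIncr
  exact Real.measurable_exp.comp (((h1.sub h2).const_mul θ).sub_const _)

lemma IsFiltBM.measurable_gridMart (h : IsFiltBM ℱ W P) (θ : ℝ) (s δ : ℝ≥0) {B : Set Ω}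
    (hB : MeasurableSet[ℱ s] B) (k : ℕ) :
    Measurable[gridFilt ℱ s δ k] (gridMart W θ s δ B k) := by
  have hle : s ≤ s + k * δ := le_self_add
  have h1 : MeasurableSet[ℱ (s + k * δ)] B := ℱ.mono hle _ hB
  have h2 := h.adapted_expIncr θ hle
  exact Measurable.mul (Measurable.indicator measurable_const h1) h2

lemma IsFiltBM.indep_expIncr (h : IsFiltBM ℱ W P) (θ : ℝ) {s t : ℝ≥0} (hst : s ≤ t) :
    Indep (MeasurableSpace.comap (expIncr W θ s t) inferInstance) (ℱ s) P := by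
  refine indep_of_indep_of_le_left (h.indep s t hst) ?_
  have : expIncr W θ s t = (fun x : ℝ => Real.exp (θ * x - θ ^ 2 * ((t : ℝ) - s) / 2)) ∘
      (fun ω => W t ω - W s ω) := by
    funext ω; rfl
  rw [this, ← MeasurableSpace.comap_comp]
  apply MeasurableSpace.comap_mono
  have hm : Measurable (fun x : ℝ => Real.exp (θ * x - θ ^ 2 * ((t : ℝ) - s) / 2)) := by
    fun_prop
  exact hm.comap_le

lemma IsFiltBM.martingale_gridMart (h : IsFiltBM ℱ W P) (θ : ℝ) (s δ : ℝ≥0) {B : Set Ω}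
    (hB : MeasurableSet[ℱ s] B) :
    Martingale (gridMart W θ s δ B) (gridFilt ℱ s δ) P ∧
      ∀ k, Integrable (gridMart W θ s δ B k) P := by
  have hP := h.isProb
  have hmeas := h.measurable_gridMart θ s δ hB
  have hstep : ∀ k : ℕ, s + k * δ ≤ s + (k + 1 : ℕ) * δ := fun k => by gcongr; simp
  have hind : ∀ k : ℕ, IndepFun (gridMart W θ s δ B k)
      (expIncr W θ (s + k * δ) (s + (k + 1 : ℕ) * δ)) P := by
    intro k
    rw [IndepFun_iff_Indep]
    exact indep_of_indep_of_le_left (h.indep_expIncr θ (hstep k)).symm (hmeas k).comap_le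
  have hint : ∀ k, Integrable (gridMart W θ s δ B k) P := by
    intro k
    induction k with
    | zero =>
      rw [gridMart_zero]
      exact (integrable_const (1 : ℝ)).indicator (ℱ.le s _ hB)
    | succ k ih =>
      have := (hind k).integrable_mul ih (h.integrable_expIncr θ (hstep k))
      refine this.congr ?_
      filter_upwards with ω
      rw [gridMart_succ]
      rfl
  refine ⟨?_, hint⟩
  refine martingale_nat (fun k => (hmeas k).stronglyMeasurable) hint ?_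
  intro k
  have e1 : gridMart W θ s δ B (k + 1) =
      gridMart W θ s δ B k * expIncr W θ (s + k * δ) (s + (k + 1 : ℕ) * δ) := by
    funext ω; exact gridMart_succ θ s δ B k ω
  have hi2 := hint (k + 1)
  rw [e1] at hi2
  have h3 : P[gridMart W θ s δ B k * expIncr W θ (s + k * δ) (s + (k + 1 : ℕ) * δ) |
      gridFilt ℱ s δ k] =ᵐ[P] gridMart W θ s δ B k *
      P[expIncr W θ (s + k * δ) (s + (k + 1 : ℕ) * δ) | gridFilt ℱ s δ k] :=
    condExp_mul_of_stronglyMeasurable_left (hmeas k).stronglyMeasurable hi2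
      (h.integrable_expIncr θ (hstep k))
  have hm2 : Measurable (expIncr W θ (s + k * δ) (s + (k + 1 : ℕ) * δ)) :=
    (h.adapted_expIncr θ (hstep k)).mono (ℱ.le _) le_rfl
  have h4 : P[expIncr W θ (s + k * δ) (s + (k + 1 : ℕ) * δ) | gridFilt ℱ s δ k] =ᵐ[P]
      fun _ => ∫ ω, expIncr W θ (s + k * δ) (s + (k + 1 : ℕ) * δ) ω ∂P := by
    refine condExp_indep_eq hm2.comap_le ((gridFilt ℱ s δ).le k) ?_ (h.indep_expIncr θ (hstep k))
    exact (comap_measurable _).stronglyMeasurable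
  rw [e1]
  filter_upwards [h3, h4] with ω h3 h4
  rw [h3, Pi.mul_apply, h4, h.integral_expIncr θ (hstep k), mul_one]

/-- Doob's maximal inequality on a grid. -/
lemma IsFiltBM.grid_bound (h : IsFiltBM ℱ W P) (θ c : ℝ) (s δ : ℝ≥0) {B : Set Ω}
    (hB : MeasurableSet[ℱ s] B) (n : ℕ) :
    P (B ∩ {ω | ∃ k ∈ Finset.range (n + 1),
      c < θ * (W (s + k * δ) ω - W s ω) - θ ^ 2 * ((k : ℝ) * δ) / 2}) ≤
      P B * ENNReal.ofReal (Real.exp (-c)) := by
  have hP := h.isProb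
  obtain ⟨hM, hint⟩ := h.martingale_gridMart θ s δ hB
  have hnn : 0 ≤ gridMart W θ s δ B := by
    intro k ω
    exact mul_nonneg (Set.indicator_nonneg (fun _ _ => zero_le_one) _) (expIncr_nonneg _ _ _ _)
  obtain ⟨ε, hε⟩ : ∃ ε : ℝ≥0, (ε : ℝ) = Real.exp c := ⟨⟨Real.exp c, (Real.exp_pos c).le⟩, rfl⟩
  have hmax := maximal_ineq (ε := ε) hM.submartingale hnn n
  set S := {ω | (ε : ℝ) ≤
    (Finset.range (n + 1)).sup' Finset.nonempty_range_add_one fun k => gridMart W θ s δ B k ω}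
    with hS
  have hsub : B ∩ {ω | ∃ k ∈ Finset.range (n + 1),
      c < θ * (W (s + k * δ) ω - W s ω) - θ ^ 2 * ((k : ℝ) * δ) / 2} ⊆ S := by
    rintro ω ⟨hωB, k, hk, hkc⟩
    rw [hS, Set.mem_ofPred_eq, Finset.le_sup'_iff]
    refine ⟨k, hk, ?_⟩
    unfold gridMart expIncr
    rw [Set.indicator_of_mem hωB, one_mul]
    rw [hε]
    apply Real.exp_le_exp.2
    push_cast
    have : ((s : ℝ) + k * δ - s) = k * δ := by ring
    rw [this]
    exact hkc.le
  have hle1 : ∫ ω in S, gridMart W θ s δ B n ω ∂P ≤ ∫ ω, gridMart W θ s δ B n ω ∂P :=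
    setIntegral_le_integral (hint n) (Eventually.of_forall (hnn n))
  have hle2 : ∫ ω, gridMart W θ s δ B n ω ∂P = P.real B := by
    have h0 : ∫ ω, gridMart W θ s δ B 0 ω ∂P = P.real B := by
      rw [gridMart_zero, integral_indicator (ℱ.le s _ hB)]
      simp
    rw [← h0]
    have := hM.setIntegral_eq (Nat.zero_le n) MeasurableSet.univ
    rw [setIntegral_univ, setIntegral_univ] at this
    exact this.symm
  have key : ENNReal.ofReal (Real.exp c) * P S ≤ P B := by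
    have h1 : (ε : ℝ≥0∞) = ENNReal.ofReal (Real.exp c) := by
      rw [← hε, ENNReal.ofReal_coe_nnreal]
    rw [← h1]
    refine hmax.trans ?_
    calc ENNReal.ofReal (∫ ω in S, gridMart W θ s δ B n ω ∂P)
        ≤ ENNReal.ofReal (P.real B) := ENNReal.ofReal_le_ofReal (hle1.trans hle2.le)
      _ = P B := by rw [Measure.real, ENNReal.ofReal_toReal (measure_ne_top _ _)]
  calc P (B ∩ _) ≤ P S := measure_mono hsub
    _ = ENNReal.ofReal (Real.exp (-c)) * (ENNReal.ofReal (Real.exp c) * P S) := by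
        rw [← mul_assoc, ← ENNReal.ofReal_mul (Real.exp_pos _).le, ← Real.exp_add]
        simp
    _ ≤ ENNReal.ofReal (Real.exp (-c)) * P B := by gcongr
    _ = _ := mul_comm _ _


/-- Ville's inequality for the exponential martingale of a Brownian motion, started at time `s` on
an event `B` of the past. -/
theorem IsFiltBM.ville (h : IsFiltBM ℱ W P) (θ c : ℝ) (s : ℝ≥0) {B : Set Ω}
    (hB : MeasurableSet[ℱ s] B) :
    P (B ∩ {ω | ∃ u : ℝ≥0, c < θ * (W (s + u) ω - W s ω) - θ ^ 2 * (u : ℝ) / 2}) ≤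
      P B * ENNReal.ofReal (Real.exp (-c)) := by
  have hP := h.isProb
  -- dyadic grids
  set G : ℕ → Set Ω := fun m => B ∩ {ω | ∃ k ∈ Finset.range (4 ^ m + 1),
      c < θ * (W (s + k * ((1 / 2) ^ m : ℝ≥0)) ω - W s ω) -
        θ ^ 2 * ((k : ℝ) * (((1 / 2) ^ m : ℝ≥0) : ℝ)) / 2} with hG
  have hGle : ∀ m, P (G m) ≤ P B * ENNReal.ofReal (Real.exp (-c)) := fun m =>
    h.grid_bound θ c s ((1 / 2) ^ m) hB (4 ^ m)
  have hmono : Monotone G := by
    refine monotone_nat_of_le_succ ?_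
    intro m ω hω
    obtain ⟨hωB, k, hk, hkc⟩ := hω
    refine ⟨hωB, 2 * k, ?_, ?_⟩
    · rw [Finset.mem_range] at hk ⊢
      rw [pow_succ]; omega
    · have e : ((2 * k : ℕ) : ℝ≥0) * ((1 / 2) ^ (m + 1) : ℝ≥0) = k * ((1 / 2) ^ m : ℝ≥0) := by
        rw [pow_succ]; push_cast; field_simp
      have e' : ((2 * k : ℕ) : ℝ) * (((1 / 2) ^ (m + 1) : ℝ≥0) : ℝ) =
          k * (((1 / 2) ^ m : ℝ≥0) : ℝ) := by
        have := congrArg (fun x : ℝ≥0 => (x : ℝ)) e
        push_cast at this ⊢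
        exact this
      rw [e, e']
      exact hkc
  have hU : P (⋃ m, G m) ≤ P B * ENNReal.ofReal (Real.exp (-c)) := by
    rw [hmono.measure_iUnion]
    exact iSup_le hGle
  refine (measure_mono_ae ?_).trans hU
  filter_upwards [h.brownian.cont] with ω hcont hω
  obtain ⟨hωB, u, hu⟩ := hω
  have hcont' : Continuous fun v : ℝ≥0 => θ * (W (s + v) ω - W s ω) - θ ^ 2 * (v : ℝ) / 2 := by
    have : Continuous fun v : ℝ≥0 => W (s + v) ω := hcont.comp (by fun_prop)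
    fun_prop
  have hlim : Tendsto (fun m : ℕ => ((⌊u * 2 ^ m⌋₊ : ℕ) : ℝ≥0) * ((1 / 2) ^ m : ℝ≥0)) atTop
      (𝓝 u) := by
    rw [← NNReal.tendsto_coe]
    have h1 : Tendsto (fun m : ℕ => ((⌊(u : ℝ) * (2 : ℝ) ^ m⌋₊ : ℕ) : ℝ) / (2 : ℝ) ^ m) atTop
        (𝓝 (u : ℝ)) :=
      (tendsto_nat_floor_mul_div_atTop (R := ℝ) u.coe_nonneg).comp
        (tendsto_pow_atTop_atTop_of_one_lt (by norm_num))
    refine h1.congr ?_
    intro m
    push_cast
    have h2 : ⌊u * 2 ^ m⌋₊ = ⌊(u : ℝ) * (2 : ℝ) ^ m⌋₊ := by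
      symm
      rw [Nat.floor_eq_iff (by positivity)]
      have a1 : ((⌊u * 2 ^ m⌋₊ : ℕ) : ℝ≥0) ≤ u * 2 ^ m := Nat.floor_le (by positivity)
      have a2 : u * 2 ^ m < ((⌊u * 2 ^ m⌋₊ : ℕ) : ℝ≥0) + 1 := Nat.lt_floor_add_one _
      exact ⟨by exact_mod_cast a1, by exact_mod_cast a2⟩
    rw [h2, one_div, inv_pow, div_eq_mul_inv]
  have hev := (hcont'.tendsto u).comp hlim
  have hev2 := hev.eventually (lt_mem_nhds hu)
  have hev3 : ∀ᶠ m : ℕ in atTop, u ≤ 2 ^ m := by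
    have h1 : Tendsto (fun m : ℕ => (2 : ℝ) ^ m) atTop atTop :=
      tendsto_pow_atTop_atTop_of_one_lt (by norm_num)
    filter_upwards [h1.eventually_ge_atTop (u : ℝ)] with m hm
    exact_mod_cast hm
  obtain ⟨m, hm1, hm2⟩ := (hev2.and hev3).exists
  refine Set.mem_iUnion.2 ⟨m, hωB, ⌊u * 2 ^ m⌋₊, ?_, ?_⟩
  · rw [Finset.mem_range, Nat.lt_succ_iff]
    refine Nat.floor_le_of_le ?_
    calc u * 2 ^ m ≤ 2 ^ m * 2 ^ m := by gcongr
      _ = ((4 ^ m : ℕ) : ℝ≥0) := by push_cast; rw [← mul_pow]; norm_num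
  · simpa using hm1


lemma IsFiltBM.neg (h : IsFiltBM ℱ W P) : IsFiltBM ℱ (-W) P where
  adapted t := (h.adapted t).neg
  brownian := h.brownian.neg
  indep s t hst := by
    refine indep_of_indep_of_le_left (h.indep s t hst) ?_
    have : (fun ω => (-W) t ω - (-W) s ω) = (fun x : ℝ => -x) ∘ (fun ω => W t ω - W s ω) := by
      funext ω
      simp only [Pi.neg_apply, Function.comp]
      ring
    rw [this, ← MeasurableSpace.comap_comp]
    apply MeasurableSpace.comap_mono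
    exact measurable_neg.comap_le

/-- Oscillation bound on a window of length `ℓ` started at `s` on an event of the past. -/
theorem IsFiltBM.osc (h : IsFiltBM ℱ W P) {θ v : ℝ} (hθ : 0 < θ) (s ℓ : ℝ≥0) {B : Set Ω}
    (hB : MeasurableSet[ℱ s] B) :
    P (B ∩ {ω | ∃ u : ℝ≥0, u ≤ ℓ ∧ v < |W (s + u) ω - W s ω|}) ≤
      P B * ENNReal.ofReal (2 * Real.exp (-(θ * v - θ ^ 2 * ℓ / 2))) := by
  have h1 := h.ville θ (θ * v - θ ^ 2 * ℓ / 2) s hB
  have h2 := h.neg.ville θ (θ * v - θ ^ 2 * ℓ / 2) s hB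
  have hsub : B ∩ {ω | ∃ u : ℝ≥0, u ≤ ℓ ∧ v < |W (s + u) ω - W s ω|} ⊆
      (B ∩ {ω | ∃ u : ℝ≥0, θ * v - θ ^ 2 * ℓ / 2 <
        θ * (W (s + u) ω - W s ω) - θ ^ 2 * (u : ℝ) / 2}) ∪
      (B ∩ {ω | ∃ u : ℝ≥0, θ * v - θ ^ 2 * ℓ / 2 <
        θ * ((-W) (s + u) ω - (-W) s ω) - θ ^ 2 * (u : ℝ) / 2}) := by
    rintro ω ⟨hωB, u, hu, huv⟩
    have hu' : (u : ℝ) ≤ ℓ := by exact_mod_cast hu
    have h3 : θ ^ 2 * (u : ℝ) / 2 ≤ θ ^ 2 * ℓ / 2 := by
      have : θ ^ 2 * (u : ℝ) ≤ θ ^ 2 * ℓ := by gcongr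
      linarith
    rcases lt_abs.1 huv with h4 | h4
    · left
      refine ⟨hωB, u, ?_⟩
      have : θ * v < θ * (W (s + u) ω - W s ω) := by gcongr
      linarith
    · right
      refine ⟨hωB, u, ?_⟩
      simp only [Pi.neg_apply]
      have : θ * v < θ * (-(W (s + u) ω - W s ω)) := by gcongr
      have h5 : -W (s + u) ω - -W s ω = -(W (s + u) ω - W s ω) := by ring
      rw [h5]
      linarith
  calc P (B ∩ {ω | ∃ u : ℝ≥0, u ≤ ℓ ∧ v < |W (s + u) ω - W s ω|})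
      ≤ _ := measure_mono hsub
    _ ≤ _ := measure_union_le _ _
    _ ≤ _ := add_le_add h1 h2
    _ = _ := by
        rw [← mul_add, ← ENNReal.ofReal_add (Real.exp_pos _).le (Real.exp_pos _).le]
        congr 2
        ring

/-- Line crossing bound. -/
theorem IsFiltBM.line (h : IsFiltBM ℱ W P) {θ x : ℝ} (hθ : 0 < θ) :
    P {ω | ∃ u : ℝ≥0, W u ω < -x - θ * u} ≤ ENNReal.ofReal (Real.exp (-(2 * θ * x))) := by
  have hP := h.isProb
  have h2 := h.neg.ville (2 * θ) (2 * θ * x) 0 (B := Set.univ) MeasurableSet.univ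
  rw [Set.univ_inter, measure_univ, one_mul] at h2
  refine (measure_mono_ae ?_).trans h2
  filter_upwards [h.brownian.toIsPreBrownianReal.eval_zero_ae_eq_zero] with ω h0 hω
  obtain ⟨u, hu⟩ := hω
  refine ⟨u, ?_⟩
  simp only [Pi.neg_apply, zero_add, h0]
  nlinarith

/-- Borel-Cantelli in the form used here. -/
lemma ae_ev_notMem {S : ℕ → Set Ω} {b : ℕ → ℝ} (hb : Summable b)
    (h : ∀ n, P (S n) ≤ ENNReal.ofReal (b n)) : ∀ᵐ ω ∂P, ∀ᶠ n in atTop, ω ∉ S n := by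
  refine ae_eventually_notMem ?_
  refine ne_top_of_le_ne_top ?_ (ENNReal.tsum_le_tsum h)
  have hb2 : Summable fun n => |b n| := hb.abs
  refine ne_top_of_le_ne_top (b := ∑' n, ENNReal.ofReal (|b n|)) ?_
    (ENNReal.tsum_le_tsum fun n => ENNReal.ofReal_le_ofReal (le_abs_self _))
  exact hb2.tsum_ofReal_ne_top

lemma ae_ev_notMem' {S : ℕ → Set Ω} {b : ℕ → ℝ} (hb : Summable b)
    (h : ∀ᶠ n in atTop, P (S n) ≤ ENNReal.ofReal (b n)) : ∀ᵐ ω ∂P, ∀ᶠ n in atTop, ω ∉ S n := by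
  obtain ⟨N, hN⟩ := eventually_atTop.1 h
  have h1 : ∀ᵐ ω ∂P, ∀ᶠ n in atTop, ω ∉ S (n + N) :=
    ae_ev_notMem (b := fun n => b (n + N)) ((summable_nat_add_iff N).2 hb)
      (fun n => hN _ (Nat.le_add_left _ _))
  filter_upwards [h1] with ω hω
  obtain ⟨N', hN'⟩ := eventually_atTop.1 hω
  refine eventually_atTop.2 ⟨N' + N, fun n hn => ?_⟩
  have := hN' (n - N) (by omega)
  rwa [Nat.sub_add_cancel (by omega)] at this

end Pool.Agent.H958.CBP
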