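import Mathlib
import Pool.Agent.H958.CBP.Ville
import Pool.Agent.H958.CBP.Rank

open MeasureTheory ProbabilityTheory Filter
open scoped ENNReal NNReal Topology

namespace Pool.Agent.H958.CBP

variable {Ω : Type*} {mΩ : MeasurableSpace Ω} {P : Measure Ω} {ℱ : Filtration ℝ≥0 mΩ}

lemma summable_exp_neg_mul {c : ℝ} (hc : 0 < c) : Summable fun n : ℕ => Real.exp (-(c * n)) := by
  have := Real.summable_pow_mul_exp_neg_nat_mul 0 hc
  refine this.congr fun n => ?_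
  simp

/-- sublinear growth of one Brownian motion -/
lemma ae_linear {W : ℝ≥0 → Ω → ℝ} (h : IsFiltBM ℱ W P) {δ : ℝ} (hδ : 0 < δ) :
    ∀ᵐ ω ∂P, ∀ᶠ u : ℝ≥0 in atTop, -(δ * u) ≤ W u ω := by
  have hP := h.isProb
  set S : ℕ → Set Ω := fun n => Set.univ ∩ {ω | ∃ u : ℝ≥0,
    (n : ℝ) < δ * ((-W) (0 + u) ω - (-W) 0 ω) - δ ^ 2 * (u : ℝ) / 2} with hS
  have hb : ∀ n : ℕ, P (S n) ≤ ENNReal.ofReal (Real.exp (-(1 * n))) := by
    intro n
    have := h.neg.ville δ (n : ℝ) 0 (B := Set.univ) MeasurableSet.univ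
    rw [measure_univ, one_mul] at this
    rw [one_mul]
    exact this
  filter_upwards [ae_ev_notMem (summable_exp_neg_mul one_pos) hb,
    h.brownian.toIsPreBrownianReal.eval_zero_ae_eq_zero] with ω hω h0
  obtain ⟨n, hn⟩ := hω.exists
  have hn' : ∀ u : ℝ≥0, δ * (-(W u ω)) - δ ^ 2 * (u : ℝ) / 2 ≤ n := by
    intro u
    by_contra hcon
    push Not at hcon
    apply hn
    refine ⟨trivial, u, ?_⟩
    simp only [Pi.neg_apply, zero_add, h0]
    linarith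
  have hev : ∀ᶠ u : ℝ≥0 in atTop, 2 * n / δ ^ 2 ≤ (u : ℝ) := by
    have : Tendsto (fun u : ℝ≥0 => (u : ℝ)) atTop atTop := NNReal.tendsto_coe_atTop.2 tendsto_id
    exact this.eventually_ge_atTop _
  filter_upwards [hev] with u hu
  rw [div_le_iff₀ (by positivity)] at hu
  have h2 := hn' u
  by_contra hcon
  push Not at hcon
  nlinarith

/-- all but finitely many Brownian motions stay above the lines `-b log i - θ u` -/
lemma ae_lines {W : ℕ → ℝ≥0 → Ω → ℝ} (hW : ∀ i, IsFiltBM ℱ (W i) P) {b θ : ℝ} (hθ : 0 < θ)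
    (hbθ : 1 < 2 * θ * b) :
    ∀ᵐ ω ∂P, ∀ᶠ i : ℕ in atTop, ∀ u : ℝ≥0, -(b * Real.log i) - θ * u ≤ W i u ω := by
  set S : ℕ → Set Ω := fun i => {ω | ∃ u : ℝ≥0, W i u ω < -(b * Real.log i) - θ * u} with hS
  have hsum : Summable fun i : ℕ => 1 / (i : ℝ) ^ (2 * θ * b) :=
    Real.summable_one_div_nat_rpow.2 hbθ
  have hbound : ∀ᶠ i : ℕ in atTop, P (S i) ≤ ENNReal.ofReal (1 / (i : ℝ) ^ (2 * θ * b)) := by
    filter_upwards [eventually_ge_atTop 1] with i hi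
    refine ((hW i).line hθ).trans (ENNReal.ofReal_le_ofReal (le_of_eq ?_))
    have hi0 : (0 : ℝ) < i := by exact_mod_cast hi
    rw [Real.rpow_def_of_pos hi0, one_div, ← Real.exp_neg]
    congr 1
    ring
  filter_upwards [ae_ev_notMem' hsum hbound] with ω hω
  filter_upwards [hω] with i hi u
  by_contra hcon
  push Not at hcon
  exact hi ⟨u, hcon⟩

/-- Oscillation of families of Brownian motions selected by events of the past. -/
lemma ae_osc_gen {W : ℕ → ℝ≥0 → Ω → ℝ} (hW : ∀ i, IsFiltBM ℱ (W i) P) (s ℓ : ℕ → ℝ≥0)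
    (B : ℕ → ℕ → Set Ω) (hB : ∀ n i, MeasurableSet[ℱ (s n)] (B n i)) {K Γ θ v ρ : ℝ}
    (hBs : ∀ n, ∑' i, P (B n i) ≤ ENNReal.ofReal (K * Real.exp (Γ * n)))
    (hK : 0 ≤ K) (hθ : 0 < θ) (hℓ : ∀ᶠ n : ℕ in atTop, (ℓ n : ℝ) ≤ ρ * n)
    (hv : Γ < θ * v - θ ^ 2 * ρ / 2) :
    ∀ᵐ ω ∂P, ∀ᶠ n : ℕ in atTop, ∀ i, ω ∈ B n i → ∀ u : ℝ≥0, u ≤ ℓ n →
      |W i (s n + u) ω - W i (s n) ω| ≤ v * n := by
  set S : ℕ → Set Ω := fun n => ⋃ i, (B n i ∩ {ω | ∃ u : ℝ≥0, u ≤ ℓ n ∧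
    v * n < |W i (s n + u) ω - W i (s n) ω|}) with hS
  set c := θ * v - θ ^ 2 * ρ / 2 - Γ with hc
  have hcpos : 0 < c := by rw [hc]; linarith
  have hsum : Summable fun n : ℕ => 2 * K * Real.exp (-(c * n)) :=
    (summable_exp_neg_mul hcpos).mul_left _
  have hbound : ∀ᶠ n : ℕ in atTop, P (S n) ≤ ENNReal.ofReal (2 * K * Real.exp (-(c * n))) := by
    filter_upwards [hℓ] with n hn
    calc P (S n) ≤ ∑' i, P (B n i ∩ {ω | ∃ u : ℝ≥0, u ≤ ℓ n ∧
          v * n < |W i (s n + u) ω - W i (s n) ω|}) := measure_iUnion_le _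
      _ ≤ ∑' i, P (B n i) * ENNReal.ofReal
            (2 * Real.exp (-(θ * (v * n) - θ ^ 2 * ℓ n / 2))) :=
          ENNReal.tsum_le_tsum fun i => (hW i).osc hθ (s n) (ℓ n) (hB n i)
      _ = (∑' i, P (B n i)) * ENNReal.ofReal
            (2 * Real.exp (-(θ * (v * n) - θ ^ 2 * ℓ n / 2))) := ENNReal.tsum_mul_right
      _ ≤ ENNReal.ofReal (K * Real.exp (Γ * n)) * ENNReal.ofReal
            (2 * Real.exp (-(θ * (v * n) - θ ^ 2 * ℓ n / 2))) := by gcongr; exact hBs n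
      _ = ENNReal.ofReal ((K * Real.exp (Γ * n)) *
            (2 * Real.exp (-(θ * (v * n) - θ ^ 2 * ℓ n / 2)))) := by
          rw [← ENNReal.ofReal_mul (by positivity)]
      _ ≤ _ := by
          apply ENNReal.ofReal_le_ofReal
          have h1 : Real.exp (Γ * n) * Real.exp (-(θ * (v * n) - θ ^ 2 * ℓ n / 2)) ≤
              Real.exp (-(c * n)) := by
            rw [← Real.exp_add]
            apply Real.exp_le_exp.2
            rw [hc]
            have h2 : θ ^ 2 * (ℓ n : ℝ) ≤ θ ^ 2 * (ρ * n) := by gcongr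
            nlinarith
          calc (K * Real.exp (Γ * n)) * (2 * Real.exp (-(θ * (v * n) - θ ^ 2 * ℓ n / 2)))
              = 2 * K * (Real.exp (Γ * n) * Real.exp (-(θ * (v * n) - θ ^ 2 * ℓ n / 2))) := by ring
            _ ≤ _ := by gcongr
  filter_upwards [ae_ev_notMem' hsum hbound] with ω hω
  filter_upwards [hω] with n hn i hi u hu
  by_contra hcon
  push Not at hcon
  exact hn (Set.mem_iUnion.2 ⟨i, hi, u, hu, hcon⟩)

/-- Oscillation of exponentially many Brownian motions. -/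
lemma ae_osc_exp {W : ℕ → ℝ≥0 → Ω → ℝ} (hW : ∀ i, IsFiltBM ℱ (W i) P) (s ℓ : ℕ → ℝ≥0)
    {Γ θ v ρ : ℝ} (hΓ : 0 ≤ Γ) (hθ : 0 < θ) (hℓ : ∀ᶠ n : ℕ in atTop, (ℓ n : ℝ) ≤ ρ * n)
    (hv : Γ < θ * v - θ ^ 2 * ρ / 2) :
    ∀ᵐ ω ∂P, ∀ᶠ n : ℕ in atTop, ∀ i : ℕ, (i : ℝ) ≤ Real.exp (Γ * n) → ∀ u : ℝ≥0, u ≤ ℓ n →
      |W i (s n + u) ω - W i (s n) ω| ≤ v * n := by
  classical
  have hP := (hW 0).isProb
  have hBs : ∀ n : ℕ, ∑' i : ℕ, P ((fun n i : ℕ => if (i : ℝ) ≤ Real.exp (Γ * n) then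
      (Set.univ : Set Ω) else ∅) n i) ≤ ENNReal.ofReal (2 * Real.exp (Γ * n)) := by
    intro n
    have h1 : ∀ i : ℕ, i ∉ Finset.range (⌊Real.exp (Γ * n)⌋₊ + 1) →
        P (if (i : ℝ) ≤ Real.exp (Γ * n) then (Set.univ : Set Ω) else ∅) = 0 := by
      intro i hi
      rw [Finset.mem_range, not_lt, Nat.succ_le_iff, Nat.floor_lt (Real.exp_pos _).le] at hi
      rw [if_neg (not_le.2 hi), measure_empty]
    simp only
    rw [tsum_eq_sum h1]
    calc ∑ i ∈ Finset.range (⌊Real.exp (Γ * n)⌋₊ + 1),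
          P (if (i : ℝ) ≤ Real.exp (Γ * n) then (Set.univ : Set Ω) else ∅)
        ≤ ∑ i ∈ Finset.range (⌊Real.exp (Γ * n)⌋₊ + 1), (1 : ℝ≥0∞) :=
          Finset.sum_le_sum fun i _ => prob_le_one
      _ = ENNReal.ofReal ((⌊Real.exp (Γ * n)⌋₊ + 1 : ℕ) : ℝ) := by
          rw [ENNReal.ofReal_natCast]; simp
      _ ≤ _ := by
          apply ENNReal.ofReal_le_ofReal
          have h2 := Nat.floor_le (Real.exp_pos (Γ * n)).le
          have h3 : (1 : ℝ) ≤ Real.exp (Γ * n) := Real.one_le_exp (by positivity)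
          push_cast
          linarith
  have := ae_osc_gen hW s ℓ (fun n i => if (i : ℝ) ≤ Real.exp (Γ * n) then Set.univ else ∅)
    (fun n i => by
      split_ifs
      · exact @MeasurableSet.univ _ (ℱ (s n))
      · exact @MeasurableSet.empty _ (ℱ (s n))) hBs (by norm_num) hθ hℓ hv
  filter_upwards [this] with ω hω
  filter_upwards [hω] with n hn i hi u hu
  exact hn i (by simp [hi]) u hu


/-- Oscillation of the lowest `C` particles after a deterministic time `s n`. -/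
lemma ae_osc_low {W X : ℕ → ℝ≥0 → Ω → ℝ} (hW : ∀ i, IsFiltBM ℱ (W i) P)
    (hX : ∀ i t, Measurable[ℱ t] (X i t)) {p : ℝ≥0 → Ω → Equiv.Perm ℕ}
    (hp : ∀ᵐ ω ∂P, ∀ t, IsRanking (fun i => X i t ω) (p t ω)) (s ℓ : ℕ → ℝ≥0) (C : ℕ)
    {θ v ρ : ℝ} (hθ : 0 < θ) (hℓ : ∀ᶠ n : ℕ in atTop, (ℓ n : ℝ) ≤ ρ * n)
    (hv : 0 < θ * v - θ ^ 2 * ρ / 2) :
    ∀ᵐ ω ∂P, ∀ᶠ n : ℕ in atTop, ∀ i : ℕ, (p (s n) ω).symm i < C → ∀ u : ℝ≥0, u ≤ ℓ n →
      |W i (s n + u) ω - W i (s n) ω| ≤ v * n := by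
  classical
  have hP := (hW 0).isProb
  set B : ℕ → ℕ → Set Ω := fun n i => {ω | rankCount (fun j => X j (s n) ω) i < C} with hBdef
  have hB : ∀ n i, MeasurableSet[ℱ (s n)] (B n i) := by
    intro n i
    have h1 := @measurable_rankCount Ω (ℱ (s n)) (fun i => X i (s n)) (fun i => hX i (s n)) i
    exact measurableSet_lt h1 measurable_const
  have hBs : ∀ n : ℕ, ∑' i : ℕ, P (B n i) ≤ ENNReal.ofReal (C * Real.exp (0 * n)) := by
    intro n
    rw [zero_mul, Real.exp_zero, mul_one, ENNReal.ofReal_natCast]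
    have h1 : ∀ i, P (B n i) = ∫⁻ ω, (B n i).indicator 1 ω ∂P := by
      intro i
      rw [lintegral_indicator_one (ℱ.le _ _ (hB n i))]
    simp_rw [h1]
    rw [← lintegral_tsum fun i => (measurable_one.indicator (ℱ.le _ _ (hB n i))).aemeasurable]
    calc ∫⁻ ω, ∑' i, (B n i).indicator 1 ω ∂P ≤ ∫⁻ ω, (C : ℝ≥0∞) ∂P := by
          refine lintegral_mono_ae ?_
          filter_upwards [hp] with ω hω
          have h2 : ∀ i, (B n i).indicator (1 : Ω → ℝ≥0∞) ω =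
              if i ∈ lowSet (p (s n) ω) C then 1 else 0 := by
            intro i
            rw [Set.indicator_apply]
            have h3 : ω ∈ B n i ↔ i ∈ lowSet (p (s n) ω) C := by
              simp only [hBdef, Set.mem_ofPred_eq, (hω (s n)).rankCount_eq i, mem_lowSet,
                Nat.cast_lt]
            simp only [h3, Pi.one_apply]
          simp_rw [h2]
          rw [tsum_eq_sum (s := lowSet (p (s n) ω) C) (fun b hb => if_neg hb),
            Finset.sum_ite_mem, Finset.inter_self]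
          simp [card_lowSet]
      _ = C := by simp
  have := ae_osc_gen hW s ℓ B hB hBs (by positivity) hθ hℓ hv
  filter_upwards [this, hp] with ω hω hpω
  filter_upwards [hω] with n hn i hi u hu
  refine hn i ?_ u hu
  simp only [hBdef, Set.mem_ofPred_eq, (hpω (s n)).rankCount_eq i, Nat.cast_lt]
  exact hi

end Pool.Agent.H958.CBP
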