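import Mathlib

open MeasureTheory ProbabilityTheory Filter
open scoped ENNReal NNReal Topology

namespace Pool.Agent.H958.CBP

lemma integral_expMeasure (f : ℝ → ℝ) {r : ℝ} (hr : 0 < r) :
    ∫ x, f x ∂(expMeasure r) = ∫ x in Set.Ioi (0 : ℝ), r * (Real.exp (-(r * x)) * f x) := by
  have h1 : expMeasure r = volume.withDensity (exponentialPDF r) := rfl
  have hm : Measurable (exponentialPDF r) := (measurable_exponentialPDFReal r).ennreal_ofReal
  rw [h1, integral_withDensity_eq_integral_toReal_smul hm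
    (by filter_upwards with x using ENNReal.ofReal_lt_top)]
  rw [← integral_indicator measurableSet_Ioi]
  apply integral_congr_ae
  have h0 : ∀ᵐ x : ℝ, x ≠ 0 := by
    have : (volume : Measure ℝ) {0} = 0 := by simp
    exact compl_mem_ae_iff.2 this
  filter_upwards [h0] with x hx
  rcases lt_or_gt_of_ne hx with h | h
  · rw [Set.indicator_of_notMem (by simpa using h.le), exponentialPDF_of_neg h]
    simp
  · rw [Set.indicator_of_mem (by simpa using h), exponentialPDF_of_nonneg h.le,
      ENNReal.toReal_ofReal (by positivity)]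
    simp only [smul_eq_mul]
    ring

lemma integral_pow_expMeasure (k : ℕ) {r : ℝ} (hr : 0 < r) :
    ∫ x, x ^ k ∂(expMeasure r) = k.factorial / r ^ k := by
  rw [integral_expMeasure _ hr]
  have h1 := Real.integral_rpow_mul_exp_neg_mul_Ioi (a := (k : ℝ) + 1) (r := r)
    (by positivity) hr
  rw [integral_const_mul]
  have h2 : ∫ x in Set.Ioi (0 : ℝ), Real.exp (-(r * x)) * x ^ k =
      ∫ x in Set.Ioi (0 : ℝ), x ^ ((k : ℝ) + 1 - 1) * Real.exp (-(r * x)) := by
    refine setIntegral_congr_fun measurableSet_Ioi ?_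
    intro x hx
    simp only
    rw [add_sub_cancel_right, Real.rpow_natCast, mul_comm]
  rw [h2, h1, Real.Gamma_nat_eq_factorial]
  have h3 : (1 / r) ^ ((k : ℝ) + 1) = 1 / r ^ (k + 1) := by
    have : ((k : ℝ) + 1) = ((k + 1 : ℕ) : ℝ) := by push_cast; ring
    rw [this, Real.rpow_natCast, div_pow, one_pow]
  rw [h3]
  field_simp
  ring

lemma integrable_pow_expMeasure (k : ℕ) {r : ℝ} (hr : 0 < r) :
    Integrable (fun x : ℝ => x ^ k) (expMeasure r) := by
  by_contra hcon
  have h := integral_pow_expMeasure k hr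
  rw [integral_undef hcon] at h
  have : (0 : ℝ) < k.factorial / r ^ k := by positivity
  linarith


variable {Ω : Type*} {mΩ : MeasurableSpace Ω} {P : Measure Ω}

section
variable {Z : ℕ → Ω → ℝ} {lam : ℕ → ℝ}

lemma integral_gap (hm : ∀ j, Measurable (Z j)) (hlam : ∀ j, 0 < lam j)
    (hlaw : ∀ j, P.map (Z j) = expMeasure (lam j)) (j k : ℕ) :
    ∫ ω, Z j ω ^ k ∂P = k.factorial / lam j ^ k := by
  rw [← integral_pow_expMeasure k (hlam j), ← hlaw j,
    integral_map (hm j).aemeasurable (by fun_prop)]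

lemma integrable_gap_pow (hm : ∀ j, Measurable (Z j)) (hlam : ∀ j, 0 < lam j)
    (hlaw : ∀ j, P.map (Z j) = expMeasure (lam j)) (j k : ℕ) :
    Integrable (fun ω => Z j ω ^ k) P := by
  have := integrable_pow_expMeasure k (hlam j)
  rw [← hlaw j, integrable_map_measure (by fun_prop) (hm j).aemeasurable] at this
  exact this

lemma memLp_gap (hm : ∀ j, Measurable (Z j)) (hlam : ∀ j, 0 < lam j)
    (hlaw : ∀ j, P.map (Z j) = expMeasure (lam j)) (j : ℕ) : MemLp (Z j) 2 P := by
  rw [memLp_two_iff_integrable_sq (hm j).aestronglyMeasurable]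
  exact integrable_gap_pow hm hlam hlaw j 2

lemma variance_gap_le [IsProbabilityMeasure P] (hm : ∀ j, Measurable (Z j)) (hlam : ∀ j, 0 < lam j)
    (hlaw : ∀ j, P.map (Z j) = expMeasure (lam j)) (j : ℕ) :
    variance (Z j) P ≤ 2 / lam j ^ 2 := by
  refine (variance_le_expectation_sq (hm j).aestronglyMeasurable).trans ?_
  have := integral_gap hm hlam hlaw j 2
  simp only [Nat.factorial_two, Nat.cast_ofNat] at this
  rw [← this]
  rfl

/-- the centred sums converge almost surely -/
lemma ae_tendsto_centred (hm : ∀ j, Measurable (Z j)) (hlam : ∀ j, 0 < lam j)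
    (hlaw : ∀ j, P.map (Z j) = expMeasure (lam j)) (hind : iIndepFun Z P)
    (hsum : Summable fun j => 1 / lam j ^ 2) :
    ∀ᵐ ω ∂P, ∃ c, Tendsto (fun n => ∑ j ∈ Finset.range n, (Z j ω - 1 / lam j)) atTop (𝓝 c) := by
  have hP : IsProbabilityMeasure P := hind.isProbabilityMeasure
  have hmean : ∀ j, ∫ ω, Z j ω ∂P = 1 / lam j := by
    intro j
    have := integral_gap hm hlam hlaw j 1
    simpa using this
  have hintZ : ∀ j, Integrable (Z j) P := fun j => by
    simpa using integrable_gap_pow hm hlam hlaw j 1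
  set f : ℕ → Ω → ℝ := fun n ω => ∑ j ∈ Finset.range (n + 1), (Z j ω - 1 / lam j) with hf
  have hsm : ∀ j, StronglyMeasurable (Z j) := fun j => (hm j).stronglyMeasurable
  set F := Filtration.natural Z hsm with hF
  have hadZ : ∀ i j, j ≤ i → StronglyMeasurable[F i] (Z j) := by
    intro i j hji
    exact ((Filtration.stronglyAdapted_natural hsm) j).mono (F.mono hji)
  have hint : ∀ n, Integrable (f n) P := fun n =>
    integrable_finsetSum _ fun j _ => (hintZ j).sub (integrable_const _)
  have hadf : StronglyAdapted F f := by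
    intro n
    refine Finset.stronglyMeasurable_fun_sum _ fun j hj => ?_
    rw [Finset.mem_range] at hj
    exact (hadZ n j (by omega)).sub stronglyMeasurable_const
  have hmart : Martingale f F P := by
    refine martingale_nat hadf hint ?_
    intro n
    have e1 : f (n + 1) = f n + (Z (n + 1) - fun _ => 1 / lam (n + 1)) := by
      funext ω
      simp only [hf, Pi.add_apply, Pi.sub_apply]
      rw [Finset.sum_range_succ]
    have h1 : P[f (n + 1) | F n] =ᵐ[P] P[f n | F n] +
        P[Z (n + 1) - fun _ => 1 / lam (n + 1) | F n] := by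
      rw [e1]
      exact condExp_add (hint n) ((hintZ _).sub (integrable_const _)) _
    have h2 : P[Z (n + 1) - (fun _ => 1 / lam (n + 1)) | F n] =ᵐ[P]
        P[Z (n + 1) | F n] - P[fun _ => 1 / lam (n + 1) | F n] :=
      condExp_sub (hintZ _) (integrable_const _) _
    have h3 : P[Z (n + 1) | F n] =ᵐ[P] fun _ => P[Z (n + 1)] :=
      hind.condExp_natural_ae_eq_of_lt hsm (Nat.lt_succ_self n)
    have h4 : P[f n | F n] = f n := condExp_of_stronglyMeasurable (F.le n) (hadf n) (hint n)
    have h5 : P[fun _ : Ω => 1 / lam (n + 1) | F n] = fun _ => 1 / lam (n + 1) :=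
      condExp_const (F.le n) _
    filter_upwards [h1, h2, h3] with ω h1 h2 h3
    rw [h1, Pi.add_apply, h2, Pi.sub_apply, h3, h4, h5, hmean]
    ring
  -- the L1 bound
  obtain ⟨V, hV⟩ : ∃ V : ℝ, ∀ n, ∑ j ∈ Finset.range n, 2 / lam j ^ 2 ≤ V := by
    refine ⟨∑' j, 2 / lam j ^ 2, fun n => ?_⟩
    have hs2 : Summable fun j => 2 / lam j ^ 2 := by
      have := hsum.mul_left 2
      refine this.congr fun j => ?_
      ring
    exact hs2.sum_le_tsum _ (fun j _ => by have := hlam j; positivity)
  have hL2 : ∀ n, ∫ ω, f n ω ^ 2 ∂P ≤ V := by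
    intro n
    have hmem : ∀ j, MemLp (fun ω => Z j ω - 1 / lam j) 2 P := fun j =>
      (memLp_gap hm hlam hlaw j).sub (memLp_const _)
    have hfn : f n = ∑ j ∈ Finset.range (n + 1), fun ω => Z j ω - 1 / lam j := by
      funext ω
      simp [hf]
    have hmean0 : ∫ ω, f n ω ∂P = 0 := by
      simp only [hf]
      rw [integral_finsetSum (f := fun j ω => Z j ω - 1 / lam j) _
        (fun j _ => (hintZ j).sub (integrable_const _))]
      refine Finset.sum_eq_zero fun j _ => ?_
      rw [integral_sub (hintZ j) (integrable_const _), hmean]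
      simp
    have hvar : variance (f n) P = ∑ j ∈ Finset.range (n + 1),
        variance (fun ω => Z j ω - 1 / lam j) P := by
      rw [hfn]
      refine IndepFun.variance_sum (fun j _ => hmem j) ?_
      intro i _ j _ hij
      exact (hind.indepFun hij).comp (φ := fun x => x - 1 / lam i) (ψ := fun x => x - 1 / lam j)
        (by fun_prop) (by fun_prop)
    have hvar2 : ∀ j, variance (fun ω => Z j ω - 1 / lam j) P ≤ 2 / lam j ^ 2 := by
      intro j
      rw [variance_sub_const (hm j).aestronglyMeasurable]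
      exact variance_gap_le hm hlam hlaw j
    have hfm : AEMeasurable (f n) P := (hint n).aestronglyMeasurable.aemeasurable
    rw [← variance_of_integral_eq_zero hfm hmean0, hvar]
    exact (Finset.sum_le_sum fun j _ => hvar2 j).trans (hV _)
  have hbdd : ∀ n, eLpNorm (f n) 1 P ≤ ((Real.toNNReal (1 + V) : ℝ≥0) : ℝ≥0∞) := by
    intro n
    have hmem : MemLp (f n) 2 P := by
      have : f n = ∑ j ∈ Finset.range (n + 1), fun ω => Z j ω - 1 / lam j := by
        funext ω
        simp [hf]
      rw [this]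
      exact memLp_finsetSum' _ fun j _ => (memLp_gap hm hlam hlaw j).sub (memLp_const _)
    have hsq : Integrable (fun ω => f n ω ^ 2) P := hmem.integrable_sq
    rw [eLpNorm_one_eq_lintegral_enorm]
    rw [← ofReal_integral_norm_eq_lintegral_enorm (hint n)]
    apply ENNReal.ofReal_le_ofReal
    calc ∫ ω, ‖f n ω‖ ∂P ≤ ∫ ω, (1 + f n ω ^ 2) ∂P := by
          refine integral_mono (hint n).norm ((integrable_const _).add hsq) fun ω => ?_
          simp only [Real.norm_eq_abs]
          nlinarith [sq_nonneg (|f n ω| - 1), sq_abs (f n ω), abs_nonneg (f n ω)]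
      _ = 1 + ∫ ω, f n ω ^ 2 ∂P := by
          rw [integral_add (integrable_const _) hsq]; simp
      _ ≤ 1 + V := by linarith [hL2 n]
  have hconv := hmart.submartingale.exists_ae_tendsto_of_bdd hbdd
  filter_upwards [hconv] with ω ⟨c, hc⟩
  exact ⟨c, (tendsto_add_atTop_iff_nat 1).1 hc⟩

end

lemma tendsto_harmonic_div_log :
    Tendsto (fun n : ℕ => (∑ j ∈ Finset.range n, 1 / ((j : ℝ) + 1)) / Real.log n) atTop (𝓝 1) := by
  have hlog : Tendsto (fun n : ℕ => Real.log n) atTop atTop :=
    Real.tendsto_log_atTop.comp tendsto_natCast_atTop_atTop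
  have heq : ∀ n : ℕ, ∑ j ∈ Finset.range n, 1 / ((j : ℝ) + 1) = (harmonic n : ℝ) := by
    intro n
    unfold harmonic
    push_cast
    simp
  have hlow : ∀ᶠ n : ℕ in atTop, (1 : ℝ) ≤ (∑ j ∈ Finset.range n, 1 / ((j : ℝ) + 1)) / Real.log n := by
    filter_upwards [hlog.eventually_gt_atTop 0, eventually_ge_atTop 1] with n hn hn1
    rw [le_div_iff₀ hn, one_mul, heq]
    refine le_trans ?_ (log_add_one_le_harmonic n)
    apply Real.log_le_log
    · positivity
    · push_cast; linarith
  have hup : ∀ᶠ n : ℕ in atTop, (∑ j ∈ Finset.range n, 1 / ((j : ℝ) + 1)) / Real.log n ≤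
      1 / Real.log n + 1 := by
    filter_upwards [hlog.eventually_gt_atTop 0] with n hn
    rw [div_le_iff₀ hn, heq]
    refine (harmonic_le_one_add_log n).trans ?_
    field_simp
    rfl
  have hlim : Tendsto (fun n : ℕ => 1 / Real.log n + 1) atTop (𝓝 1) := by
    have := (tendsto_const_nhds (x := (1 : ℝ))).div_atTop hlog
    simpa using this.add_const 1
  exact tendsto_of_tendsto_of_tendsto_of_le_of_le' tendsto_const_nhds hlim hlow hup

lemma tendsto_mean_div_log {lam : ℕ → ℝ} {a : ℝ} (ha : 0 < a)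
    (hl : Tendsto (fun j : ℕ => lam j / ((j : ℝ) + 1)) atTop (𝓝 a)) :
    Tendsto (fun n : ℕ => (∑ j ∈ Finset.range n, 1 / lam j) / Real.log n) atTop (𝓝 (1 / a)) := by
  set h : ℕ → ℝ := fun j => 1 / ((j : ℝ) + 1) with hh
  have hdiv : Tendsto (fun n => ∑ j ∈ Finset.range n, h j) atTop atTop := by
    have := Real.tendsto_sum_range_one_div_nat_succ_atTop
    exact this
  have ho : (fun j => 1 / lam j - (1 / a) * h j) =o[atTop] h := by
    have h1 : Tendsto (fun j => (1 / lam j - (1 / a) * h j) / h j) atTop (𝓝 0) := by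
      have h2 : Tendsto (fun j : ℕ => 1 / (lam j / ((j : ℝ) + 1)) - 1 / a) atTop
          (𝓝 (1 / a - 1 / a)) :=
        (Tendsto.div tendsto_const_nhds hl ha.ne').sub_const _
      rw [sub_self] at h2
      refine h2.congr fun j => ?_
      have : ((j : ℝ) + 1) ≠ 0 := by positivity
      rw [sub_div, mul_div_assoc, div_self (by rw [hh]; positivity), mul_one]
      rw [hh]
      simp only [one_div, div_inv_eq_mul, inv_div]
      congr 1
      rw [div_eq_mul_inv, mul_comm]
    refine (Asymptotics.isLittleO_iff_tendsto' ?_).2 h1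
    filter_upwards with j hj
    exfalso
    have : (0 : ℝ) < h j := by rw [hh]; positivity
    exact this.ne' hj
  have hs := ho.sum_range (fun j => by simp only [hh]; positivity) hdiv
  have h3 : Tendsto (fun n => (∑ j ∈ Finset.range n, (1 / lam j - (1 / a) * h j)) /
      ∑ j ∈ Finset.range n, h j) atTop (𝓝 0) := hs.tendsto_div_nhds_zero
  have h4 := (h3.mul tendsto_harmonic_div_log).add (tendsto_harmonic_div_log.const_mul (1 / a))
  rw [zero_mul, zero_add, mul_one] at h4
  refine h4.congr' ?_
  filter_upwards [hdiv.eventually_gt_atTop 0] with n hn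
  have hn' : (∑ j ∈ Finset.range n, h j) ≠ 0 := hn.ne'
  rw [Finset.sum_sub_distrib, ← Finset.mul_sum]
  change _ / (∑ j ∈ Finset.range n, h j) * ((∑ j ∈ Finset.range n, h j) / _) +
    1 / a * ((∑ j ∈ Finset.range n, h j) / _) = _
  rw [div_mul_div_cancel₀ hn']
  ring

/-- the initial positions grow like `(log n) / a` -/
theorem ae_tendsto_init {Z : ℕ → Ω → ℝ} {lam : ℕ → ℝ} {a : ℝ} (ha : 0 < a)
    (hm : ∀ j, Measurable (Z j)) (hlam : ∀ j, 0 < lam j)
    (hlaw : ∀ j, P.map (Z j) = expMeasure (lam j)) (hind : iIndepFun Z P)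
    (hl : Tendsto (fun j : ℕ => lam j / ((j : ℝ) + 1)) atTop (𝓝 a)) :
    ∀ᵐ ω ∂P, Tendsto (fun n : ℕ => (∑ j ∈ Finset.range n, Z j ω) / Real.log n) atTop
      (𝓝 (1 / a)) := by
  have hsum : Summable fun j => 1 / lam j ^ 2 := by
    have h1 : Summable fun j : ℕ => 4 / a ^ 2 * (1 / ((j : ℝ) + 1) ^ 2) := by
      have : Summable fun j : ℕ => 1 / ((j : ℝ) + 1) ^ 2 := by
        have := (summable_nat_add_iff 1).2 (Real.summable_one_div_nat_pow.2 one_lt_two)
        refine this.congr fun j => ?_
        push_cast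
        rfl
      exact this.mul_left _
    refine Summable.of_norm_bounded_eventually_nat h1 ?_
    filter_upwards [hl.eventually (lt_mem_nhds (half_lt_self ha))] with j hj
    have hj1 : (0 : ℝ) < (j : ℝ) + 1 := by positivity
    rw [lt_div_iff₀ hj1] at hj
    have hlj := hlam j
    rw [Real.norm_of_nonneg (by positivity)]
    have h2 : (a / 2 * ((j : ℝ) + 1)) ^ 2 ≤ lam j ^ 2 := by
      have : 0 ≤ a / 2 * ((j : ℝ) + 1) := by positivity
      exact pow_le_pow_left₀ this hj.le 2
    calc 1 / lam j ^ 2 ≤ 1 / (a / 2 * ((j : ℝ) + 1)) ^ 2 := by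
          apply one_div_le_one_div_of_le _ h2
          positivity
      _ = 4 / a ^ 2 * (1 / ((j : ℝ) + 1) ^ 2) := by
          field_simp
          ring
  filter_upwards [ae_tendsto_centred hm hlam hlaw hind hsum] with ω ⟨c, hc⟩
  have hlog : Tendsto (fun n : ℕ => Real.log n) atTop atTop :=
    Real.tendsto_log_atTop.comp tendsto_natCast_atTop_atTop
  have h1 := (hc.div_atTop hlog).add (tendsto_mean_div_log ha hl)
  rw [zero_add] at h1
  refine h1.congr fun n => ?_
  rw [Finset.sum_sub_distrib]
  ring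

end Pool.Agent.H958.CBP
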