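import Mathlib
import Pool.Agent.H958.CBP.Ville

open MeasureTheory ProbabilityTheory Filter
open scoped ENNReal NNReal Topology

namespace Pool.Agent.H958.CBP

/-- Gaussian lower tail -/
lemma gaussian_tail_ge {v : ℝ≥0} (hv : 1 ≤ v) {α : ℝ} (hα : 0 < α) :
    ENNReal.ofReal (1 / (7 * v) * Real.exp (-(α ^ 2 * v / 2 + α + 1 / 2))) ≤
      gaussianReal 0 v (Set.Iic (-(α * v))) := by
  have hv1 : (1 : ℝ) ≤ v := by exact_mod_cast hv
  have hv0 : v ≠ 0 := by
    intro h; rw [h] at hv; simp at hv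
  set c : ℝ := 1 / (7 * v) * Real.exp (-(α ^ 2 * v / 2 + α + 1 / 2)) with hc
  have hsub : Set.Icc (-(α * v) - 1) (-(α * v)) ⊆ Set.Iic (-(α * v) : ℝ) := fun x hx => hx.2
  refine le_trans ?_ (measure_mono hsub)
  rw [gaussianReal_apply 0 hv0]
  have h1 : ∀ x ∈ Set.Icc (-(α * v) - 1) (-(α * v) : ℝ), ENNReal.ofReal c ≤ gaussianPDF 0 v x := by
    intro x hx
    unfold gaussianPDF gaussianPDFReal
    apply ENNReal.ofReal_le_ofReal
    rw [hc]
    have h2 : 1 / (7 * (v : ℝ)) ≤ (√(2 * Real.pi * v))⁻¹ := by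
      rw [one_div]
      apply inv_anti₀
      · positivity
      · rw [Real.sqrt_le_left (by positivity)]
        have := Real.pi_lt_four
        nlinarith [Real.pi_pos]
    have h3 : -(α ^ 2 * v / 2 + α + 1 / 2) ≤ -(x - 0) ^ 2 / (2 * v) := by
      rw [le_div_iff₀ (by positivity)]
      have h4 : x ^ 2 ≤ (α * v + 1) ^ 2 := by
        have h5 : 0 ≤ -x := by
          have : 0 ≤ α * v := by positivity
          linarith [hx.2]
        have h6 : -x ≤ α * v + 1 := by linarith [hx.1]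
        nlinarith
      nlinarith [sq_nonneg α]
    gcongr
  calc ENNReal.ofReal c = ∫⁻ x in Set.Icc (-(α * v) - 1) (-(α * v) : ℝ), ENNReal.ofReal c := by
        rw [setLIntegral_const, Real.volume_Icc]
        simp
    _ ≤ _ := setLIntegral_mono' measurableSet_Icc h1

variable {Ω : Type*} {mΩ : MeasurableSpace Ω} {P : Measure Ω}

/-- in an independent family, some member of a large block is low -/
lemma block_bound {Y : ℕ → Ω → ℝ} (hY : ∀ i, Measurable (Y i)) (hind : iIndepFun Y P)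
    {c q : ℝ} (hq : 0 < q) (hlow : ∀ i, ENNReal.ofReal q ≤ P (Y i ⁻¹' Set.Iic c))
    (S : Finset ℕ) (hS : 0 < S.card) :
    P {ω | ∀ i ∈ S, c < Y i ω} ≤ ENNReal.ofReal (1 / (S.card * q)) := by
  have hP : IsProbabilityMeasure P := hind.isProbabilityMeasure
  have h1 : {ω | ∀ i ∈ S, c < Y i ω} = ⋂ i ∈ S, Y i ⁻¹' Set.Ioi c := by
    ext ω; simp
  rw [h1, hind.measure_inter_preimage_eq_mul S (fun i _ => measurableSet_Ioi)]
  have hq1 : q ≤ 1 := by
    have := (hlow 0).trans prob_le_one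
    rwa [ENNReal.ofReal_le_one] at this
  have h2 : ∀ i ∈ S, P (Y i ⁻¹' Set.Ioi c) ≤ ENNReal.ofReal (1 - q) := by
    intro i _
    have h3 : Y i ⁻¹' Set.Ioi c = (Y i ⁻¹' Set.Iic c)ᶜ := by
      ext ω; simp
    rw [h3, prob_compl_eq_one_sub (hY i measurableSet_Iic), ENNReal.ofReal_sub _ hq.le,
      ENNReal.ofReal_one]
    exact tsub_le_tsub_left (hlow i) _
  calc ∏ i ∈ S, P (Y i ⁻¹' Set.Ioi c) ≤ ∏ i ∈ S, ENNReal.ofReal (1 - q) :=
        Finset.prod_le_prod' h2
    _ = ENNReal.ofReal ((1 - q) ^ S.card) := by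
        rw [Finset.prod_const, ENNReal.ofReal_pow (by linarith)]
    _ ≤ ENNReal.ofReal (1 / (S.card * q)) := by
        apply ENNReal.ofReal_le_ofReal
        have h4 : (1 - q) ^ S.card ≤ Real.exp (-(S.card * q)) := by
          have h5 : 1 - q ≤ Real.exp (-q) := by
            have := Real.add_one_le_exp (-q); linarith
          calc (1 - q) ^ S.card ≤ (Real.exp (-q)) ^ S.card :=
                pow_le_pow_left₀ (by linarith) h5 _
            _ = Real.exp (-(S.card * q)) := by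
                rw [← Real.exp_nat_mul]; congr 1; ring
        have hpos : 0 < (S.card : ℝ) * q := by positivity
        refine h4.trans ?_
        rw [Real.exp_neg, ← one_div]
        apply one_div_le_one_div_of_le hpos
        have := Real.add_one_le_exp ((S.card : ℝ) * q)
        linarith

/-- size of the blocks -/
noncomputable def blk (p : ℝ) (m : ℕ) : ℕ := ⌊Real.exp (p * m)⌋₊

lemma blk_ge {p : ℝ} (hp : 0 < p) (m : ℕ) : Real.exp (p * m) / 2 ≤ blk p m := by
  have h1 : (1 : ℝ) ≤ Real.exp (p * m) := Real.one_le_exp (by positivity)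
  have h2 := Nat.lt_floor_add_one (Real.exp (p * m))
  have h3 : (1 : ℝ) ≤ (⌊Real.exp (p * m)⌋₊ : ℝ) := by
    have : 1 ≤ ⌊Real.exp (p * m)⌋₊ := Nat.le_floor (by simpa using h1)
    exact_mod_cast this
  unfold blk
  linarith

lemma blk_le (p : ℝ) (m : ℕ) : (blk p m : ℝ) ≤ Real.exp (p * m) :=
  Nat.floor_le (Real.exp_pos _).le

/-- a.s. eventually, in the `l`-th block of particles some Brownian motion is below `-α m`. -/
theorem ae_block {ℱ : Filtration ℝ≥0 mΩ} {W : ℕ → ℝ≥0 → Ω → ℝ} (hW : ∀ i, IsFiltBM ℱ (W i) P)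
    (hind : ∀ t, iIndepFun (fun i => W i t) P) {α p : ℝ} (hα : 0 < α) (hp : α ^ 2 / 2 < p)
    (l : ℕ) :
    ∀ᵐ ω ∂P, ∀ᶠ m : ℕ in atTop, ∃ i ∈ Finset.Ico (l * blk p m) ((l + 1) * blk p m),
      W i m ω ≤ -(α * m) := by
  have hp0 : 0 < p := lt_of_le_of_lt (by positivity) hp
  have hP : IsProbabilityMeasure P := (hW 0).isProb
  set S : ℕ → Set Ω := fun m => {ω | ∀ i ∈ Finset.Ico (l * blk p m) ((l + 1) * blk p m),
    -(α * m) < W i m ω} with hS
  have hcard : ∀ m, (Finset.Ico (l * blk p m) ((l + 1) * blk p m)).card = blk p m := by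
    intro m
    rw [Nat.card_Ico, ← Nat.sub_mul]
    simp
  set b : ℕ → ℝ := fun m => 14 * Real.exp (α + 1 / 2) *
    ((m : ℝ) ^ 1 * Real.exp (-(p - α ^ 2 / 2) * m)) with hb
  have hbs : Summable b := by
    refine Summable.mul_left _ ?_
    have := Real.summable_pow_mul_exp_neg_nat_mul 1 (r := p - α ^ 2 / 2) (by linarith)
    exact this
  have hbound : ∀ᶠ m : ℕ in atTop, P (S m) ≤ ENNReal.ofReal (b m) := by
    filter_upwards [eventually_ge_atTop 1] with m hm
    have hm1 : (1 : ℝ≥0) ≤ (m : ℝ≥0) := by exact_mod_cast hm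
    have hm1' : (1 : ℝ) ≤ (m : ℝ) := by exact_mod_cast hm
    set q : ℝ := 1 / (7 * m) * Real.exp (-(α ^ 2 * m / 2 + α + 1 / 2)) with hq
    have hqpos : 0 < q := by positivity
    have hlow : ∀ i, ENNReal.ofReal q ≤ P (W i m ⁻¹' Set.Iic (-(α * m))) := by
      intro i
      have h1 := (hW i).brownian.toIsPreBrownianReal.hasLaw_eval m
      have h2 : P (W i m ⁻¹' Set.Iic (-(α * m))) =
          gaussianReal 0 (m : ℝ≥0) (Set.Iic (-(α * m))) := by
        rw [← h1.map_eq, Measure.map_apply ((hW i).measurable m) measurableSet_Iic]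
      rw [h2]
      have := gaussian_tail_ge hm1 hα
      simpa [hq] using this
    have hblk := blk_ge hp0 m
    have hblkpos : (0 : ℝ) < blk p m := lt_of_lt_of_le (by positivity) hblk
    have h3 := block_bound (fun i => (hW i).measurable m) (hind m) hqpos hlow
      (Finset.Ico (l * blk p m) ((l + 1) * blk p m)) (by
        rw [hcard]; exact_mod_cast hblkpos)
    rw [hcard] at h3
    refine h3.trans (ENNReal.ofReal_le_ofReal ?_)
    have h4 : Real.exp (p * m) / 2 * q ≤ blk p m * q := by gcongr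
    have h5 : 1 / ((blk p m : ℝ) * q) ≤ 1 / (Real.exp (p * m) / 2 * q) :=
      one_div_le_one_div_of_le (by positivity) h4
    refine h5.trans (le_of_eq ?_)
    rw [hb, hq]
    simp only [pow_one]
    have e1 : Real.exp (-(p - α ^ 2 / 2) * m) = Real.exp (-(p * m)) * Real.exp (α ^ 2 * m / 2) := by
      rw [← Real.exp_add]; congr 1; ring
    have e2 : Real.exp (-(α ^ 2 * m / 2 + α + 1 / 2)) =
        (Real.exp (α ^ 2 * m / 2))⁻¹ * (Real.exp (α + 1 / 2))⁻¹ := by
      rw [← Real.exp_neg, ← Real.exp_neg, ← Real.exp_add]; congr 1; ring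
    rw [e1, e2, Real.exp_neg]
    field_simp
    ring
  filter_upwards [ae_ev_notMem' hbs hbound] with ω hω
  filter_upwards [hω] with m hm
  simp only [hS, Set.mem_ofPred_eq, not_forall, not_lt] at hm
  obtain ⟨i, hi, h⟩ := hm
  exact ⟨i, hi, h⟩

end Pool.Agent.H958.CBP
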