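import Mathlib
import Pool.Agent.H958.CBP.Cluster
import Pool.Agent.H958.CBP.Events
import Pool.Agent.H958.CBP.Many
import Pool.Agent.H958.CBP.Init

open MeasureTheory ProbabilityTheory Filter
open scoped ENNReal NNReal Topology

namespace Pool.Agent.H958.CBP

variable {Ω : Type*} {mΩ : MeasurableSpace Ω}

/-- An infinite system of competing Brownian particles with drift coefficients `g` (particles and
ranks numbered from `0`): `X i t ω` is the position of particle `i`, `p t ω k` is the particle of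
rank `k` at time `t`. -/
structure IsCBP (ℱ : Filtration ℝ≥0 mΩ) (P : Measure Ω) (g : ℕ → ℝ) (W X : ℕ → ℝ≥0 → Ω → ℝ)
    (p : ℝ≥0 → Ω → Equiv.Perm ℕ) : Prop where
  bm : ∀ i, IsFiltBM ℱ (W i) P
  indep : iIndepFun (fun i ω t => W i t ω) P
  adapted : ∀ i t, Measurable[ℱ t] (X i t)
  cont : ∀ᵐ ω ∂P, ∀ i, Continuous fun t => X i t ω
  rank : ∀ᵐ ω ∂P, ∀ t, IsRanking (fun i => X i t ω) (p t ω)
  sde : ∀ᵐ ω ∂P, ∀ i (t : ℝ≥0),
    X i t ω = X i 0 ω + (∫ s in (0 : ℝ)..t, g ((p s.toNNReal ω).symm i)) + W i t ω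

variable {ℱ : Filtration ℝ≥0 mΩ} {P : Measure Ω} {g : ℕ → ℝ} {W X : ℕ → ℝ≥0 → Ω → ℝ}
  {p : ℝ≥0 → Ω → Equiv.Perm ℕ} {M : ℝ}

lemma IsCBP.path (h : IsCBP ℱ P g W X p) (hM : ∀ k, |g k| ≤ M) :
    ∀ᵐ ω ∂P, Path g M (fun i t => X i t ω) (fun i t => W i t ω) (fun t => p t ω) := by
  filter_upwards [h.cont, h.rank, h.sde] with ω h1 h2 h3
  exact ⟨h1, h2, h3, hM⟩

lemma IsCBP.indep_at (h : IsCBP ℱ P g W X p) (t : ℝ≥0) : iIndepFun (fun i => W i t) P :=
  h.indep.comp (fun _ (f : ℝ≥0 → ℝ) => f t) (fun _ => measurable_pi_apply t)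

/-- growth of the initial positions -/
def InitGrowth (P : Measure Ω) (X : ℕ → ℝ≥0 → Ω → ℝ) (a : ℝ) : Prop :=
  ∀ᵐ ω ∂P, Tendsto (fun n : ℕ => X n 0 ω / Real.log n) atTop (𝓝 (1 / a))

lemma tendsto_log_nat : Tendsto (fun n : ℕ => Real.log n) atTop atTop :=
  Real.tendsto_log_atTop.comp tendsto_natCast_atTop_atTop

lemma InitGrowth.lower {a : ℝ} (hI : InitGrowth P X a) {b : ℝ} (hb : b < 1 / a) :
    ∀ᵐ ω ∂P, ∀ᶠ i : ℕ in atTop, b * Real.log i ≤ X i 0 ω := by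
  filter_upwards [hI] with ω hω
  filter_upwards [hω.eventually (lt_mem_nhds hb), tendsto_log_nat.eventually_gt_atTop 0]
    with i h1 h2
  rw [lt_div_iff₀ h2] at h1
  exact h1.le

lemma InitGrowth.upper {a : ℝ} (hI : InitGrowth P X a) {b : ℝ} (hb : 1 / a < b) :
    ∀ᵐ ω ∂P, ∀ᶠ i : ℕ in atTop, X i 0 ω ≤ b * Real.log i := by
  filter_upwards [hI] with ω hω
  filter_upwards [hω.eventually (gt_mem_nhds hb), tendsto_log_nat.eventually_gt_atTop 0]
    with i h1 h2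
  rw [div_lt_iff₀ h2] at h1
  exact h1.le

/-- Step 1: no free particle is lower than `-(a/2+ε) u`. -/
lemma IsCBP.ae_step1 (h : IsCBP ℱ P g W X p) {a : ℝ} (ha : 0 < a) (hI : InitGrowth P X a)
    {θ : ℝ} (hθ : a / 2 < θ) :
    ∀ᵐ ω ∂P, ∀ᶠ u : ℝ≥0 in atTop, ∀ i, -(θ * u) < X i 0 ω + W i u ω := by
  -- an intermediate slope
  obtain ⟨θ', h1, h2⟩ := exists_between hθ
  have hθ'0 : 0 < θ' := by linarith
  have hθ0 : 0 < θ := by linarith
  have h3 : 1 / (2 * θ') < 1 / a := by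
    apply one_div_lt_one_div_of_lt ha
    linarith
  obtain ⟨b, hb1, hb2⟩ := exists_between h3
  have hb3 : 1 < 2 * θ' * b := by
    rw [div_lt_iff₀ (by positivity)] at hb1
    linarith
  have hfin : ∀ᵐ ω ∂P, ∀ i, ∀ᶠ u : ℝ≥0 in atTop, -(θ / 2 * u) ≤ W i u ω :=
    ae_all_iff.2 fun i => ae_linear (h.bm i) (by positivity)
  filter_upwards [ae_lines h.bm hθ'0 hb3, hI.lower hb2, hfin] with ω e1 e2 e3
  obtain ⟨N, hN⟩ := eventually_atTop.1 (e1.and e2)
  have e4 : ∀ᶠ u : ℝ≥0 in atTop, ∀ i ∈ Finset.range N, -(θ / 2 * u) ≤ W i u ω ∧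
      -(X i 0 ω) < θ / 2 * u := by
    rw [eventually_all_finset]
    intro i _
    refine (e3 i).and ?_
    have : Tendsto (fun u : ℝ≥0 => θ / 2 * (u : ℝ)) atTop atTop :=
      (NNReal.tendsto_coe_atTop.2 tendsto_id).const_mul_atTop (by positivity)
    exact this.eventually_gt_atTop _
  filter_upwards [e4, eventually_gt_atTop 0] with u hu hu0 i
  have hu0' : (0 : ℝ) < u := by exact_mod_cast hu0
  by_cases hi : i < N
  · obtain ⟨h4, h5⟩ := hu i (Finset.mem_range.2 hi)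
    linarith
  · obtain ⟨h4, h5⟩ := hN i (not_lt.1 hi)
    have h6 := h4 u
    have h7 : θ' * u < θ * u := by gcongr
    linarith

/-- far particles stay far up -/
lemma IsCBP.ae_far (h : IsCBP ℱ P g W X p) {a : ℝ} (ha : 0 < a) (hI : InitGrowth P X a)
    {L M : ℝ} (hL : 0 < L) (hM : 0 ≤ M) :
    ∃ Γ : ℝ, 0 < Γ ∧ ∀ᵐ ω ∂P, ∀ᶠ n : ℕ in atTop, ∀ i : ℕ, Real.exp (Γ * n) < i →
      ∀ u : ℝ≥0, (u : ℝ) ≤ n + 1 → L * (n + 1) < X i 0 ω + W i u ω - M * u := by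
  set b : ℝ := 1 / (2 * a) with hb
  have hb0 : 0 < b := by positivity
  have hb1 : b < 1 / a := by
    rw [hb]
    apply one_div_lt_one_div_of_lt ha
    linarith
  set θ : ℝ := 2 / b with hθ
  have hθ0 : 0 < θ := by positivity
  have hθb : 1 < 2 * θ * (b / 2) := by
    rw [hθ]; field_simp; norm_num
  set Γ : ℝ := 4 * (θ + M + L) / b with hΓ
  have hΓ0 : 0 < Γ := by positivity
  refine ⟨Γ, hΓ0, ?_⟩
  filter_upwards [ae_lines h.bm hθ0 hθb, hI.lower hb1] with ω e1 e2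
  obtain ⟨N, hN⟩ := eventually_atTop.1 (e1.and e2)
  have e3 : ∀ᶠ n : ℕ in atTop, (N : ℝ) ≤ Real.exp (Γ * n) := by
    have : Tendsto (fun n : ℕ => Real.exp (Γ * n)) atTop atTop :=
      Real.tendsto_exp_atTop.comp (tendsto_natCast_atTop_atTop.const_mul_atTop hΓ0)
    exact this.eventually_ge_atTop _
  filter_upwards [e3, eventually_ge_atTop 1] with n hn hn1 i hi u hu
  have hn1' : (1 : ℝ) ≤ n := by exact_mod_cast hn1
  have hiN : N ≤ i := by
    have : (N : ℝ) < i := lt_of_le_of_lt hn hi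
    exact_mod_cast this.le
  obtain ⟨h4, h5⟩ := hN i hiN
  have h6 := h4 u
  have hlog : Γ * n < Real.log i := by
    rw [← Real.log_exp (Γ * n)]
    exact Real.log_lt_log (Real.exp_pos _) hi
  have h7 : b / 2 * (Γ * n) < b / 2 * Real.log i := by gcongr
  have h8 : b / 2 * (Γ * n) = 2 * (θ + M + L) * n := by
    rw [hΓ]; field_simp; ring
  have h9 : (θ + M) * u ≤ (θ + M) * (n + 1) := by gcongr
  have h10 : (θ + M + L) * ((n : ℝ) + 1) ≤ 2 * (θ + M + L) * n := by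
    have : 0 < θ + M + L := by positivity
    nlinarith
  nlinarith

/-- the first particles are not too high -/
lemma IsCBP.ae_near (h : IsCBP ℱ P g W X p) (hM : ∀ k, |g k| ≤ M) (C : ℕ) :
    ∀ᵐ ω ∂P, ∀ᶠ n : ℕ in atTop, X (p n ω C) n ω ≤ (M + 1) * n := by
  have hfin : ∀ᵐ ω ∂P, ∀ i, ∀ᶠ u : ℝ≥0 in atTop, -(1 / 2 * u) ≤ (-(W i)) u ω :=
    ae_all_iff.2 fun i => ae_linear (h.bm i).neg (by norm_num)
  filter_upwards [h.path hM, hfin] with ω hpath e3
  have hcast : Tendsto (fun n : ℕ => (n : ℝ≥0)) atTop atTop := tendsto_natCast_atTop_atTop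
  have e4 : ∀ᶠ n : ℕ in atTop, ∀ i ∈ Finset.range (C + 1),
      -(1 / 2 * (n : ℝ)) ≤ (-(W i)) n ω ∧ X i 0 ω < 1 / 2 * n := by
    rw [eventually_all_finset]
    intro i _
    refine Eventually.and ?_ ?_
    · have := hcast.eventually (e3 i)
      filter_upwards [this] with n hn
      simpa using hn
    · have : Tendsto (fun n : ℕ => 1 / 2 * (n : ℝ)) atTop atTop :=
        tendsto_natCast_atTop_atTop.const_mul_atTop (by norm_num)
      exact this.eventually_gt_atTop _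
  filter_upwards [e4] with n hn
  refine (hpath.rank n).rank_le_of_many (x := fun i => X i n ω) (S := Finset.range (C + 1))
    (by simp) ?_
  intro i hi
  obtain ⟨h1, h2⟩ := hn i hi
  simp only [Pi.neg_apply] at h1
  have h3 := hpath.eq i n
  have h4 := abs_le.1 (abs_drift_le hpath.meas hM i (t := ((n : ℝ≥0) : ℝ)) (by positivity))
  have h5 : (((n : ℕ) : ℝ≥0) : ℝ) = (n : ℝ) := by simp
  rw [h5] at h3 h4
  rw [h3]
  linarith [h4.2]


/-- few particles are low: bound on the gap between rank `C` and rank `0`. -/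
lemma Path.rank_lower {x w : ℕ → ℝ≥0 → ℝ} {p : ℝ≥0 → Equiv.Perm ℕ} (h : Path g M x w p)
    {a ε : ℝ} (hε : 0 < ε) {K C : ℕ} (hK : ∀ k, K ≤ k → |g k| ≤ ε) (hC : K * M / ε ≤ C)
    {t : ℝ≥0} (ht : 0 < t) (h1 : ∀ i, -((a / 2 + ε) * t) < x i 0 + w i t) :
    -((a / 2 + 3 * ε) * t) ≤ x (p t C) t := by
  have ht' : (0 : ℝ) < t := by exact_mod_cast ht
  refine (h.rank t).rank_ge_of_few (x := fun i => x i t) ?_
  intro S hS
  have h2 := drift_budget h.meas h.bdd hK hε.le ht' (A := S) (by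
    intro i hi
    have h3 := hS i hi
    rw [h.eq i t] at h3
    have h4 := h1 i
    rw [lt_abs]
    right
    nlinarith)
  have h3 : (S.card : ℝ) ≤ K * M / ε := by
    rw [le_div_iff₀ hε]; exact h2
  exact_mod_cast h3.trans hC

/-- The excess of the bottom particle at integer times is eventually smaller than `R n`. -/
theorem IsCBP.ae_exc (h : IsCBP ℱ P g W X p) (hM : ∀ k, |g k| ≤ M)
    (hg0 : Tendsto g atTop (𝓝 0)) {a η : ℝ} (ha : 0 < a) (hη : 0 < η)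
    (hg : ∀ k : ℕ, 1 ≤ k → η - a / 2 ≤ (∑ j ∈ Finset.range k, g j) / k)
    (hI : InitGrowth P X a) {R : ℝ} (hR : 0 < R) :
    ∀ᵐ ω ∂P, ∀ᶠ n : ℕ in atTop,
      exc a (fun i t => X i t ω) (fun t => p t ω) n < R * n := by
  have hM0 : 0 ≤ M := (abs_nonneg _).trans (hM 0)
  set ε : ℝ := R / 6 with hε
  have hε0 : 0 < ε := by positivity
  obtain ⟨K, hK⟩ : ∃ K : ℕ, ∀ k, K ≤ k → |g k| ≤ ε := by
    have := hg0.abs
    rw [abs_zero] at this
    obtain ⟨K, hK⟩ := eventually_atTop.1 (this.eventually (ge_mem_nhds hε0))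
    exact ⟨K, hK⟩
  set C : ℕ := ⌈K * M / ε⌉₊ + 1 with hC
  have hC1 : 1 ≤ C := by omega
  have hCK : K * M / ε ≤ C := by
    have := Nat.le_ceil (K * M / ε)
    rw [hC]; push_cast; linarith
  obtain ⟨Γ, hΓ0, hfar⟩ := h.ae_far ha hI (L := 2 * M + 2) (M := M) (by positivity) hM0
  obtain ⟨κ, r, ζ, hP, hκR, hrκ⟩ := exists_params (M := M) (η := η) (R := R / 2) (Γ := Γ) (C := C)
    hM0 hη hC1 (by positivity) hΓ0.le
  -- the events
  have E3 : ∀ m, ∀ᵐ ω ∂P, ∀ᶠ n : ℕ in atTop, ∀ i : ℕ, (i : ℝ) ≤ Real.exp (Γ * n) →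
      ∀ u : ℝ≥0, u ≤ (⌊r m * n⌋₊ : ℕ) →
      |W i (((n - ⌊r m * n⌋₊ : ℕ) : ℝ≥0) + u) ω - W i ((n - ⌊r m * n⌋₊ : ℕ) : ℝ≥0) ω| ≤
        κ m / 8 * n := by
    intro m
    have hκm := hP.kappa_pos m
    refine ae_osc_exp h.bm (fun n => ((n - ⌊r m * n⌋₊ : ℕ) : ℝ≥0)) (fun n => (⌊r m * n⌋₊ : ℕ))
      (θ := 16 * (Γ + 1) / κ m) (ρ := r m) hΓ0.le (by positivity) ?_ ?_
    · filter_upwards with n
      have := Nat.floor_le (mul_nonneg (hP.r_pos m).le (Nat.cast_nonneg n : (0 : ℝ) ≤ n))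
      simpa using this
    · have h1 : 16 * (Γ + 1) / κ m * (κ m / 8) = 2 * (Γ + 1) := by field_simp; norm_num
      have h2 : (16 * (Γ + 1) / κ m) ^ 2 * r m / 2 ≤ 1 := by
        have h3 := hrκ m
        have h4 : (16 * (Γ + 1) / κ m) ^ 2 * r m / 2 = (128 * (Γ + 1) ^ 2 * r m) / κ m ^ 2 := by
          field_simp; ring
        rw [h4, div_le_one (by positivity)]
        exact h3
      rw [h1]
      linarith
  have E4 : ∀ m, ∀ᵐ ω ∂P, ∀ᶠ n : ℕ in atTop, ∀ i : ℕ,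
      (p ((n - ⌊r m * n⌋₊ : ℕ) : ℝ≥0) ω).symm i < C →
      ∀ u : ℝ≥0, u ≤ (⌊r m * n⌋₊ : ℕ) →
      |W i (((n - ⌊r m * n⌋₊ : ℕ) : ℝ≥0) + u) ω - W i ((n - ⌊r m * n⌋₊ : ℕ) : ℝ≥0) ω| ≤
        ζ * n := by
    intro m
    have hζ := hP.zeta_pos
    refine ae_osc_low h.bm h.adapted h.rank (fun n => ((n - ⌊r m * n⌋₊ : ℕ) : ℝ≥0))
      (fun n => (⌊r m * n⌋₊ : ℕ)) C (θ := ζ) (ρ := r m) hζ ?_ ?_
    · filter_upwards with n
      have := Nat.floor_le (mul_nonneg (hP.r_pos m).le (Nat.cast_nonneg n : (0 : ℝ) ≤ n))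
      simpa using this
    · have h1 := hP.r_le m
      have h2 : 0 < ζ ^ 2 := by positivity
      nlinarith
  have hstep1 := h.ae_step1 ha hI (θ := a / 2 + ε) (by linarith)
  filter_upwards [h.path hM, ae_all_iff.2 E3, ae_all_iff.2 E4, hfar, hstep1, h.ae_near hM C]
    with ω hpath e3 e4 e5 e6 e7
  have hcast : Tendsto (fun n : ℕ => (n : ℝ≥0)) atTop atTop := tendsto_natCast_atTop_atTop
  have e3' : ∀ᶠ n : ℕ in atTop, ∀ m ∈ Finset.range (C + 1), ∀ i : ℕ,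
      (i : ℝ) ≤ Real.exp (Γ * n) →
      ∀ u : ℝ≥0, u ≤ (⌊r m * n⌋₊ : ℕ) →
      |W i (((n - ⌊r m * n⌋₊ : ℕ) : ℝ≥0) + u) ω - W i ((n - ⌊r m * n⌋₊ : ℕ) : ℝ≥0) ω| ≤
        κ m / 8 * n := by
    rw [eventually_all_finset]
    exact fun m _ => e3 m
  have e4' : ∀ᶠ n : ℕ in atTop, ∀ m ∈ Finset.range (C + 1), ∀ i : ℕ,
      (p ((n - ⌊r m * n⌋₊ : ℕ) : ℝ≥0) ω).symm i < C →
      ∀ u : ℝ≥0, u ≤ (⌊r m * n⌋₊ : ℕ) →
      |W i (((n - ⌊r m * n⌋₊ : ℕ) : ℝ≥0) + u) ω - W i ((n - ⌊r m * n⌋₊ : ℕ) : ℝ≥0) ω| ≤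
        ζ * n := by
    rw [eventually_all_finset]
    exact fun m _ => e4 m
  have e8 : ∀ᶠ n : ℕ in atTop, ∀ m ∈ Finset.range (C + 1), 2 ≤ r m * n := by
    rw [eventually_all_finset]
    intro m _
    have : Tendsto (fun n : ℕ => r m * (n : ℝ)) atTop atTop :=
      tendsto_natCast_atTop_atTop.const_mul_atTop (hP.r_pos m)
    exact this.eventually_ge_atTop 2
  have e9 := hcast.eventually e6
  obtain ⟨T, hT⟩ := eventually_atTop.1 ((e3'.and e4').and ((e5.and e7).and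
    ((e8.and e9).and (eventually_ge_atTop 1))))
  refine iterate_step (η := η) hR hη (T := T) ?_
  intro n hn hU
  obtain ⟨⟨f3, f4⟩, ⟨⟨f5, f7⟩, ⟨f8, f9⟩, f10⟩⟩ := hT n hn
  have hn0 : (0 : ℝ) < n := by exact_mod_cast f10
  have hcn : (((n : ℕ) : ℝ≥0) : ℝ) = (n : ℝ) := by simp
  refine hpath.step hP hg (I := Real.exp (Γ * n))
    (fun m hm => f8 m (Finset.mem_range.2 (by omega)))
    (fun m hm => f3 m (Finset.mem_range.2 (by omega)))
    (fun m hm => f4 m (Finset.mem_range.2 (by omega))) ?_ f7 ?_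
  · intro i hi u hu
    have hu' : (u : ℝ) ≤ n := by exact_mod_cast hu
    have h1 := f5 i hi u (by linarith)
    have h2 := hpath.eq i u
    have h3 := abs_le.1 (abs_drift_le hpath.meas hM i (t := (u : ℝ)) u.coe_nonneg)
    rw [h2]
    nlinarith [h3.1]
  · have h1 := hpath.rank_lower (a := a) hε0 hK hCK (t := (n : ℝ≥0)) (by exact_mod_cast f10)
      (by
        intro i
        exact f9 i)
    rw [hcn] at h1
    unfold exc at hU
    have h2 : (C : ℝ) * (κ 0 * n) ≤ R / 2 * n := by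
      rw [← mul_assoc]
      gcongr
    have h3 : 3 * ε = R / 2 := by rw [hε]; ring
    nlinarith


/-- Many particles are low at integer times. -/
theorem IsCBP.ae_low_many (h : IsCBP ℱ P g W X p) (hM : ∀ k, |g k| ≤ M)
    (hg0 : Tendsto g atTop (𝓝 0)) {a : ℝ} (ha : 0 < a) (hI : InitGrowth P X a) {ε : ℝ}
    (hε : 0 < ε) (hεa : ε ≤ a) (k : ℕ) :
    ∃ Γ : ℝ, 0 ≤ Γ ∧ ∀ᵐ ω ∂P, ∀ᶠ n : ℕ in atTop, ∃ S : Finset ℕ, k + 1 ≤ S.card ∧
      ∀ i ∈ S, (i : ℝ) ≤ Real.exp (Γ * n) ∧ X i n ω ≤ (-(a / 2) + 3 * ε) * n := by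
  have hM0 : 0 ≤ M := (abs_nonneg _).trans (hM 0)
  obtain ⟨K, hK⟩ : ∃ K : ℕ, ∀ k, K ≤ k → |g k| ≤ ε := by
    have := hg0.abs
    rw [abs_zero] at this
    obtain ⟨K, hK⟩ := eventually_atTop.1 (this.eventually (ge_mem_nhds hε))
    exact ⟨K, hK⟩
  set C : ℕ := ⌈K * M / ε⌉₊ with hC
  have hCK : K * M / ε ≤ C := Nat.le_ceil _
  set N : ℕ := C + k + 1 with hN
  set α : ℝ := a + ε / 4 with hα
  set p0 : ℝ := a * (a / 2 + ε / 2) with hp0
  have hp0pos : 0 < p0 := by positivity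
  have hα0 : 0 < α := by positivity
  have hαp : α ^ 2 / 2 < p0 := by rw [hα, hp0]; nlinarith
  set b' : ℝ := (a / 2 + 5 * ε / 8) / p0 with hb'
  have hb'0 : 0 < b' := by positivity
  have hb'1 : 1 / a < b' := by
    rw [hb', hp0, div_lt_div_iff₀ ha (by positivity)]
    nlinarith
  have hb'p : b' * p0 = a / 2 + 5 * ε / 8 := by rw [hb']; field_simp
  refine ⟨p0 + 1, by positivity, ?_⟩
  have hblocks : ∀ᵐ ω ∂P, ∀ l : ℕ, ∀ᶠ m : ℕ in atTop,
      ∃ i ∈ Finset.Ico (l * blk p0 m) ((l + 1) * blk p0 m), W i m ω ≤ -(α * m) :=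
    ae_all_iff.2 fun l => ae_block h.bm h.indep_at hα0 hαp l
  filter_upwards [h.path hM, hblocks, hI.upper hb'1] with ω hpath e1 e2
  obtain ⟨N0, hN0⟩ := eventually_atTop.1 e2
  have e1' : ∀ᶠ m : ℕ in atTop, ∀ l ∈ Finset.Icc 1 N,
      ∃ i ∈ Finset.Ico (l * blk p0 m) ((l + 1) * blk p0 m), W i m ω ≤ -(α * m) := by
    rw [eventually_all_finset]
    exact fun l _ => e1 l
  have e3 : ∀ᶠ m : ℕ in atTop, (N0 : ℝ) ≤ Real.exp (p0 * m) / 2 := by
    have : Tendsto (fun n : ℕ => Real.exp (p0 * n) / 2) atTop atTop :=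
      (Real.tendsto_exp_atTop.comp
        (tendsto_natCast_atTop_atTop.const_mul_atTop hp0pos)).atTop_div_const (by norm_num)
    exact this.eventually_ge_atTop _
  have e4 : ∀ᶠ m : ℕ in atTop, b' * Real.log (N + 1) ≤ 5 * ε / 8 * m := by
    have : Tendsto (fun n : ℕ => 5 * ε / 8 * (n : ℝ)) atTop atTop :=
      tendsto_natCast_atTop_atTop.const_mul_atTop (by positivity)
    exact this.eventually_ge_atTop _
  have e5 : ∀ᶠ m : ℕ in atTop, ((N : ℝ) + 1) ≤ Real.exp m := by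
    have : Tendsto (fun n : ℕ => Real.exp (n : ℝ)) atTop atTop :=
      Real.tendsto_exp_atTop.comp tendsto_natCast_atTop_atTop
    exact this.eventually_ge_atTop _
  filter_upwards [e1', e3, e4, e5, eventually_ge_atTop 1] with m f1 f3 f4 f5 f6
  have hm0 : (0 : ℝ) < m := by exact_mod_cast f6
  have hblkge := blk_ge hp0pos m
  have hblkle := blk_le p0 m
  have hblkpos : 0 < blk p0 m := by
    have : (0 : ℝ) < blk p0 m := lt_of_lt_of_le (by positivity) hblkge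
    exact_mod_cast this
  choose! ι hι using f1
  set S0 : Finset ℕ := (Finset.Icc 1 N).image ι with hS0
  have hdiv : ∀ l ∈ Finset.Icc 1 N, ι l / blk p0 m = l := by
    intro l hl
    obtain ⟨h1, -⟩ := hι l hl
    rw [Finset.mem_Ico] at h1
    exact Nat.div_eq_of_lt_le h1.1 h1.2
  have hcard0 : S0.card = N := by
    rw [hS0, Finset.card_image_of_injOn, Nat.card_Icc]
    · simp
    · intro l hl l' hl' hll
      rw [← hdiv l hl, ← hdiv l' hl', hll]
  have hS0i : ∀ i ∈ S0, (i : ℝ) ≤ Real.exp ((p0 + 1) * m) ∧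
      X i 0 ω + W i m ω ≤ (-(a / 2) + ε) * m := by
    intro i hi
    obtain ⟨l, hl, rfl⟩ := Finset.mem_image.1 hi
    obtain ⟨h1, h2⟩ := hι l hl
    rw [Finset.mem_Ico] at h1
    rw [Finset.mem_Icc] at hl
    have h3 : (blk p0 m : ℝ) ≤ ι l := by
      have : blk p0 m ≤ ι l := le_trans (Nat.le_mul_of_pos_left _ hl.1) h1.1
      exact_mod_cast this
    have h4 : (ι l : ℝ) ≤ (N + 1) * Real.exp (p0 * m) := by
      have h5 : (ι l : ℝ) ≤ ((l + 1) * blk p0 m : ℕ) := by exact_mod_cast h1.2.le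
      refine h5.trans ?_
      push_cast
      have h6 : (l : ℝ) ≤ N := by exact_mod_cast hl.2
      gcongr
    have hN0i : N0 ≤ ι l := by
      have : (N0 : ℝ) ≤ ι l := (f3.trans hblkge).trans h3
      exact_mod_cast this
    have hilpos : (0 : ℝ) < ι l := lt_of_lt_of_le (by exact_mod_cast hblkpos) h3
    refine ⟨?_, ?_⟩
    · refine h4.trans ?_
      have : Real.exp ((p0 + 1) * m) = Real.exp m * Real.exp (p0 * m) := by
        rw [← Real.exp_add]; congr 1; ring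
      rw [this]
      gcongr
    · have h7 := hN0 (ι l) hN0i
      have h8 : Real.log (ι l) ≤ Real.log (N + 1) + p0 * m := by
        have := Real.log_le_log hilpos h4
        rwa [Real.log_mul (by positivity) (by positivity), Real.log_exp] at this
      have h9 : b' * Real.log (ι l) ≤ b' * (Real.log (N + 1) + p0 * m) := by gcongr
      have h10 : b' * (Real.log (N + 1) + p0 * m) = b' * Real.log (N + 1) +
          (a / 2 + 5 * ε / 8) * m := by rw [← hb'p]; ring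
      have h11 : α * m = (a + ε / 4) * m := by rw [hα]
      nlinarith
  classical
  set S : Finset ℕ := S0.filter fun i => ¬ 2 * ε * m < |drift g (fun t => p t ω) i m| with hS
  set S' : Finset ℕ := S0.filter fun i => 2 * ε * m < |drift g (fun t => p t ω) i m| with hS'
  have hS'card : S'.card ≤ C := by
    have h1 := drift_budget hpath.meas hM hK hε.le hm0 (A := S') (by
      intro i hi
      exact (Finset.mem_filter.1 hi).2)
    have h2 : (S'.card : ℝ) ≤ K * M / ε := by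
      rw [le_div_iff₀ hε]; exact h1
    exact_mod_cast h2.trans hCK
  have hsum : S'.card + S.card = S0.card :=
    Finset.card_filter_add_card_filter_not (s := S0)
      (fun i => 2 * ε * m < |drift g (fun t => p t ω) i m|)
  refine ⟨S, by omega, ?_⟩
  intro i hi
  obtain ⟨hi0, hi1⟩ := Finset.mem_filter.1 hi
  obtain ⟨h1, h2⟩ := hS0i i hi0
  refine ⟨h1, ?_⟩
  have h3 := hpath.eq i m
  have hcn : (((m : ℕ) : ℝ≥0) : ℝ) = (m : ℝ) := by simp
  rw [hcn] at h3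
  rw [not_lt, abs_le] at hi1
  rw [h3]
  nlinarith [hi1.2]


/-- oscillation of exponentially many particles over unit intervals -/
lemma IsCBP.ae_unit_osc (h : IsCBP ℱ P g W X p) {Γ v : ℝ} (hΓ : 0 ≤ Γ) (hv : 0 < v) :
    ∀ᵐ ω ∂P, ∀ᶠ n : ℕ in atTop, ∀ i : ℕ, (i : ℝ) ≤ Real.exp (Γ * n) → ∀ u : ℝ≥0, u ≤ 1 →
      |W i ((n : ℝ≥0) + u) ω - W i (n : ℝ≥0) ω| ≤ v * n := by
  set θ : ℝ := (Γ + 2) / v with hθ
  have hθ0 : 0 < θ := by positivity
  set ρ : ℝ := 1 / θ ^ 2 with hρ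
  have hρ0 : 0 < ρ := by positivity
  refine ae_osc_exp h.bm (fun n => (n : ℝ≥0)) (fun _ => 1) (θ := θ) (ρ := ρ) hΓ hθ0 ?_ ?_
  · have : Tendsto (fun n : ℕ => ρ * (n : ℝ)) atTop atTop :=
      tendsto_natCast_atTop_atTop.const_mul_atTop hρ0
    filter_upwards [this.eventually_ge_atTop 1] with n hn
    simpa using hn
  · have h1 : θ * v = Γ + 2 := by rw [hθ]; field_simp
    have h2 : θ ^ 2 * ρ / 2 = 1 / 2 := by rw [hρ]; field_simp
    rw [h1, h2]
    linarith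

lemma tendsto_nat_floor_nnreal : Tendsto (fun t : ℝ≥0 => ⌊t⌋₊) atTop atTop :=
  tendsto_nat_floor_atTop

/-- lower bound at real times -/
theorem IsCBP.ae_lower (h : IsCBP ℱ P g W X p) (hM : ∀ k, |g k| ≤ M)
    (hg0 : Tendsto g atTop (𝓝 0)) {a η : ℝ} (ha : 0 < a) (hη : 0 < η)
    (hg : ∀ k : ℕ, 1 ≤ k → η - a / 2 ≤ (∑ j ∈ Finset.range k, g j) / k)
    (hI : InitGrowth P X a) {R : ℝ} (hR : 0 < R) :
    ∀ᵐ ω ∂P, ∀ᶠ t : ℝ≥0 in atTop, -((a / 2 + R) * t) ≤ X (p t ω 0) t ω := by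
  have hM0 : 0 ≤ M := (abs_nonneg _).trans (hM 0)
  obtain ⟨Γ, hΓ0, hfar⟩ := h.ae_far ha hI (L := 1) (M := M) (by positivity) hM0
  filter_upwards [h.path hM, hfar, h.ae_exc hM hg0 ha hη hg hI (R := R / 3) (by positivity),
    h.ae_unit_osc hΓ0.le (v := R / 3) (by positivity)] with ω hpath e1 e2 e3
  have e4 : ∀ᶠ t : ℝ≥0 in atTop, M ≤ R / 3 * (t : ℝ) := by
    have : Tendsto (fun t : ℝ≥0 => R / 3 * (t : ℝ)) atTop atTop :=
      (NNReal.tendsto_coe_atTop.2 tendsto_id).const_mul_atTop (by positivity)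
    exact this.eventually_ge_atTop _
  filter_upwards [tendsto_nat_floor_nnreal.eventually (e1.and (e2.and e3)), e4,
    eventually_ge_atTop 0] with t ⟨f1, f2, f3⟩ f4 ht0
  set n : ℕ := ⌊t⌋₊ with hn
  have hnt : (n : ℝ≥0) ≤ t := Nat.floor_le ht0
  have htn : t < n + 1 := Nat.lt_floor_add_one t
  have hnt' : (n : ℝ) ≤ t := by exact_mod_cast hnt
  have htn' : (t : ℝ) < n + 1 := by exact_mod_cast htn
  have ht0' : (0 : ℝ) ≤ t := t.coe_nonneg
  have hn0 : (0 : ℝ) ≤ n := Nat.cast_nonneg n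
  -- every particle is above the bound
  have key : ∀ i, -((a / 2 + R) * t) ≤ X i t ω := by
    intro i
    by_cases hi : (i : ℝ) ≤ Real.exp (Γ * n)
    · have h1 := hpath.move i hnt
      have h2 := f3 i hi (t - n) (by
        rw [tsub_le_iff_right, add_comm]
        exact htn.le)
      rw [add_tsub_cancel_of_le hnt] at h2
      have h3 : X (p n ω 0) n ω ≤ X i n ω :=
        (hpath.rank n).lowest (x := fun i => X i n ω) i
      unfold exc at f2
      have hcn : (((n : ℕ) : ℝ≥0) : ℝ) = (n : ℝ) := by simp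
      rw [hcn] at h1
      have h4 := (abs_le.1 h1).1
      have h5 : M * ((t : ℝ) - n) ≤ M := by
        have : (t : ℝ) - n ≤ 1 := by linarith
        nlinarith
      have h6 : (a / 2 + 2 * R / 3) * n ≤ (a / 2 + 2 * R / 3) * t := by gcongr
      nlinarith
    · push Not at hi
      have h1 := f1 i hi t htn'.le
      have h2 := hpath.eq i t
      have h3 := abs_le.1 (abs_drift_le hpath.meas hM i (t := (t : ℝ)) ht0')
      rw [h2]
      have h4 : 0 ≤ (a / 2 + R) * t := by positivity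
      nlinarith [h3.1]
  exact key _

/-- upper bound at real times -/
theorem IsCBP.ae_upper (h : IsCBP ℱ P g W X p) (hM : ∀ k, |g k| ≤ M)
    (hg0 : Tendsto g atTop (𝓝 0)) {a : ℝ} (ha : 0 < a) (hI : InitGrowth P X a) {ε : ℝ}
    (hε : 0 < ε) (hεa : ε ≤ a / 8) (k : ℕ) :
    ∀ᵐ ω ∂P, ∀ᶠ t : ℝ≥0 in atTop, X (p t ω k) t ω ≤ (-(a / 2) + 5 * ε) * t := by
  have hM0 : 0 ≤ M := (abs_nonneg _).trans (hM 0)
  obtain ⟨Γ, hΓ0, hmany⟩ := h.ae_low_many hM hg0 ha hI hε (by linarith) k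
  filter_upwards [h.path hM, hmany, h.ae_unit_osc hΓ0 (v := ε) hε] with ω hpath e2 e3
  have e4 : ∀ᶠ t : ℝ≥0 in atTop, M + a / 2 ≤ ε * (t : ℝ) := by
    have : Tendsto (fun t : ℝ≥0 => ε * (t : ℝ)) atTop atTop :=
      (NNReal.tendsto_coe_atTop.2 tendsto_id).const_mul_atTop (by positivity)
    exact this.eventually_ge_atTop _
  filter_upwards [tendsto_nat_floor_nnreal.eventually (e2.and e3), e4,
    eventually_ge_atTop 0] with t ⟨f2, f3⟩ f4 ht0
  set n : ℕ := ⌊t⌋₊ with hn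
  have hnt : (n : ℝ≥0) ≤ t := Nat.floor_le ht0
  have htn : t < n + 1 := Nat.lt_floor_add_one t
  have hnt' : (n : ℝ) ≤ t := by exact_mod_cast hnt
  have htn' : (t : ℝ) < n + 1 := by exact_mod_cast htn
  have hn0 : (0 : ℝ) ≤ n := Nat.cast_nonneg n
  obtain ⟨S, hScard, hS⟩ := f2
  refine (hpath.rank t).rank_le_of_many (x := fun i => X i t ω) hScard ?_
  intro i hi
  obtain ⟨hi1, hi2⟩ := hS i hi
  have h1 := hpath.move i hnt
  have h2 := f3 i hi1 (t - n) (by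
    rw [tsub_le_iff_right, add_comm]
    exact htn.le)
  rw [add_tsub_cancel_of_le hnt] at h2
  have hcn : (((n : ℕ) : ℝ≥0) : ℝ) = (n : ℝ) := by simp
  rw [hcn] at h1
  have h4 := (abs_le.1 h1).2
  have h5 : M * ((t : ℝ) - n) ≤ M := by
    have : (t : ℝ) - n ≤ 1 := by linarith
    nlinarith
  have h6 : (-(a / 2) + 4 * ε) * n ≤ (-(a / 2) + 4 * ε) * (t - 1) := by
    have : -(a / 2) + 4 * ε ≤ 0 := by linarith
    nlinarith
  have h7 : X i t ω ≤ (-(a / 2) + 3 * ε) * n + M + ε * n := by linarith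
  have h8 : (-(a / 2) + 4 * ε) * ((t : ℝ) - 1) = (-(a / 2) + 4 * ε) * t + (a / 2 - 4 * ε) := by ring
  nlinarith

/-- Almost-sure speed of every ranked particle. -/
theorem IsCBP.speed (h : IsCBP ℱ P g W X p) (hM : ∀ k, |g k| ≤ M)
    (hg0 : Tendsto g atTop (𝓝 0)) {a η : ℝ} (ha : 0 < a) (hη : 0 < η)
    (hg : ∀ k : ℕ, 1 ≤ k → η - a / 2 ≤ (∑ j ∈ Finset.range k, g j) / k)
    (hI : InitGrowth P X a) (k : ℕ) :
    ∀ᵐ ω ∂P, Tendsto (fun t : ℝ≥0 => X (p t ω k) t ω / t) atTop (𝓝 (-(a / 2))) := by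
  have hlow : ∀ᵐ ω ∂P, ∀ m : ℕ, ∀ᶠ t : ℝ≥0 in atTop,
      -((a / 2 + 1 / ((m : ℝ) + 1)) * t) ≤ X (p t ω 0) t ω :=
    ae_all_iff.2 fun m => h.ae_lower hM hg0 ha hη hg hI (by positivity)
  have hup : ∀ᵐ ω ∂P, ∀ m : ℕ, ∀ᶠ t : ℝ≥0 in atTop,
      X (p t ω k) t ω ≤ (-(a / 2) + 5 * min (a / 8) (1 / ((m : ℝ) + 1))) * t :=
    ae_all_iff.2 fun m => h.ae_upper hM hg0 ha hI (by
      apply lt_min <;> positivity) (min_le_left _ _) k
  filter_upwards [h.path hM, hlow, hup] with ω hpath e1 e2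
  rw [Metric.tendsto_nhds]
  intro δ hδ
  obtain ⟨m, hm⟩ := exists_nat_one_div_lt (show (0 : ℝ) < δ / 5 by positivity)
  filter_upwards [e1 m, e2 m, eventually_gt_atTop 0] with t h1 h2 ht
  have ht' : (0 : ℝ) < t := by exact_mod_cast ht
  have h3 : X (p t ω 0) t ω ≤ X (p t ω k) t ω :=
    (hpath.rank t).mono (x := fun i => X i t ω) (Nat.zero_le k)
  rw [Real.dist_eq, abs_lt]
  constructor
  · have h4 : -((a / 2 + 1 / ((m : ℝ) + 1))) ≤ X (p t ω k) t ω / t := by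
      rw [le_div_iff₀ ht']; linarith
    linarith
  · have h4 : X (p t ω k) t ω / t ≤ -(a / 2) + 5 * min (a / 8) (1 / ((m : ℝ) + 1)) := by
      rw [div_le_iff₀ ht']; exact h2
    have h5 : min (a / 8) (1 / ((m : ℝ) + 1)) ≤ 1 / ((m : ℝ) + 1) := min_le_right _ _
    linarith

end Pool.Agent.H958.CBP
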