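import Mathlib
import Pool.Agent.H958.CBP.Main

/-!
# MP_2a679d_pr: almost-sure speed of ranked particles under the gap distributions `π_a`

Full positive answer to Q1. Particles and ranks are numbered from `0` here, so `g k` is the drift
of the particle of rank `k`, i.e. the problem's `g_{k+1}`.

Idea of the proof (everything is pathwise; stationarity of `π_a` is not used).  Exponentially many
particles `i ≤ e^{ct}` matter up to time `t`, but since at every time only `K` particles have rank
below `K`, only boundedly many of them can have an accumulated drift of order `t`; hence all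
ranked particles beyond a bounded rank move with the speed `-a/2` of the lowest free particles.
The finitely many lowest particles cannot escape downwards: if they did, then at some scale a
cluster of `n` lowest particles would be separated by a macroscopic gap from all the others, it
would consist of the same particles during a macroscopic time, and its centre of mass would move
with speed `(g_1+...+g_n)/n ≥ -a/2 + η`; going backwards in time this gives a contradiction.
-/

open MeasureTheory ProbabilityTheory Filter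
open scoped ENNReal NNReal Topology

namespace Pool.Agent.Results.MP_2a679d_pr.AlmostSureSpeed

/-- The permutation `p` ranks the configuration `x`, ties being broken by the index: the particle
of rank `k` is `p k`. -/
def IsRanking (x : ℕ → ℝ) (p : Equiv.Perm ℕ) : Prop :=
  ∀ i j, i < j → x (p i) < x (p j) ∨ (x (p i) = x (p j) ∧ p i < p j)

/-- `W` is a standard Brownian motion relative to the filtration `ℱ`: it is adapted, it is a
Brownian motion (Mathlib's `IsBrownianReal`, started at `0`, with a.s. continuous paths), and for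
`s ≤ t` the increment `W t - W s` is independent of `ℱ s`. -/
structure IsFilteredBrownian {Ω : Type*} {mΩ : MeasurableSpace Ω} (ℱ : Filtration ℝ≥0 mΩ)
    (W : ℝ≥0 → Ω → ℝ) (P : Measure Ω) : Prop where
  adapted : ∀ t, Measurable[ℱ t] (W t)
  brownian : IsBrownianReal W P
  indep : ∀ s t, s ≤ t → Indep (MeasurableSpace.comap (fun ω => W t ω - W s ω) inferInstance)
    (ℱ s) P

/-- An infinite system of competing Brownian particles with drift coefficients `g` on a filtered
probability space: `W i` are independent standard Brownian motions of the filtration,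
`X i t ω` is the position of particle `i` at time `t`, the process `X` is adapted and continuous,
`p t ω` is the ranking permutation at time `t`, and
`X i t = X i 0 + ∫₀ᵗ g (rank of particle i at time s) ds + W i t`. -/
structure IsCompetingBrownian {Ω : Type*} {mΩ : MeasurableSpace Ω} (ℱ : Filtration ℝ≥0 mΩ)
    (P : Measure Ω) (g : ℕ → ℝ) (W X : ℕ → ℝ≥0 → Ω → ℝ)
    (p : ℝ≥0 → Ω → Equiv.Perm ℕ) : Prop where
  brownian : ∀ i, IsFilteredBrownian ℱ (W i) P
  indep : iIndepFun (fun i ω t => W i t ω) P
  adapted : ∀ i t, Measurable[ℱ t] (X i t)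
  cont : ∀ᵐ ω ∂P, ∀ i, Continuous fun t => X i t ω
  ranking : ∀ᵐ ω ∂P, ∀ t, IsRanking (fun i => X i t ω) (p t ω)
  sde : ∀ᵐ ω ∂P, ∀ i (t : ℝ≥0),
    X i t ω = X i 0 ω + (∫ s in (0 : ℝ)..t, g ((p s.toNNReal ω).symm i)) + W i t ω

/-- The system is started from `X 0 0 = 0` with gaps distributed according to `π_a`: the gaps
`X (n+1) 0 - X n 0` are independent and exponential with parameters
`2 (g 0 + ... + g n) + (n + 1) a`. -/
structure StartsFromGapLaw {Ω : Type*} {mΩ : MeasurableSpace Ω} (P : Measure Ω) (g : ℕ → ℝ)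
    (a : ℝ) (X : ℕ → ℝ≥0 → Ω → ℝ) : Prop where
  zero : ∀ᵐ ω ∂P, X 0 0 ω = 0
  indep : iIndepFun (fun (n : ℕ) ω => X (n + 1) 0 ω - X n 0 ω) P
  law : ∀ n : ℕ, P.map (fun ω => X (n + 1) 0 ω - X n 0 ω) =
    expMeasure (2 * ∑ k ∈ Finset.range (n + 1), g k + (n + 1) * a)

/-- **Almost-sure speed of ranked particles.** Let `g` be square summable, let
`a > -2 inf_n (g_1 + ... + g_n)/n` and start the system of competing Brownian particles from
`X_1(0) = 0` and gaps with law `π_a`. Then for every rank `k`, almost surely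
`Y_k(t) / t → -a/2` as `t → ∞`. -/
theorem result {Ω : Type*} {mΩ : MeasurableSpace Ω} (ℱ : Filtration ℝ≥0 mΩ) (P : Measure Ω)
    (g : ℕ → ℝ) (a : ℝ) (W X : ℕ → ℝ≥0 → Ω → ℝ) (p : ℝ≥0 → Ω → Equiv.Perm ℕ)
    (hg : Summable fun k => g k ^ 2)
    (ha : -2 * (⨅ n : ℕ, (∑ k ∈ Finset.range (n + 1), g k) / ((n : ℝ) + 1)) < a)
    (hX : IsCompetingBrownian ℱ P g W X p) (h0 : StartsFromGapLaw P g a X) (k : ℕ) :
    ∀ᵐ ω ∂P, Tendsto (fun t : ℝ≥0 => X (p t ω k) t ω / t) atTop (𝓝 (-(a / 2))) := by
  -- the drifts tend to `0` and are bounded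
  have hg0 : Tendsto g atTop (𝓝 0) := by
    have h1 := hg.tendsto_atTop_zero
    have h2 := h1.sqrt
    rw [Real.sqrt_zero] at h2
    have h3 : ∀ k, √(g k ^ 2) = |g k| := fun k => Real.sqrt_sq_eq_abs _
    simp_rw [h3] at h2
    exact (tendsto_zero_iff_abs_tendsto_zero g).2 h2
  obtain ⟨M, hM⟩ : ∃ M, ∀ k, |g k| ≤ M := by
    obtain ⟨M, hM⟩ := (Metric.isBounded_range_of_tendsto g hg0).exists_norm_le
    exact ⟨M, fun k => hM _ ⟨k, rfl⟩⟩
  -- averages
  have hcard : ∀ n : ℕ, |(∑ k ∈ Finset.range (n + 1), g k) / ((n : ℝ) + 1)| ≤ M := by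
    intro n
    rw [abs_div, abs_of_pos (show (0 : ℝ) < (n : ℝ) + 1 by positivity), div_le_iff₀ (by positivity)]
    refine (Finset.abs_sum_le_sum_abs _ _).trans ?_
    refine (Finset.sum_le_sum fun k _ => hM k).trans ?_
    rw [Finset.sum_const, Finset.card_range, nsmul_eq_mul]
    push_cast
    linarith
  set I : ℝ := ⨅ n : ℕ, (∑ k ∈ Finset.range (n + 1), g k) / ((n : ℝ) + 1) with hI
  have hbdd : BddBelow (Set.range fun n : ℕ =>
      (∑ k ∈ Finset.range (n + 1), g k) / ((n : ℝ) + 1)) := by
    refine ⟨-M, ?_⟩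
    rintro _ ⟨n, rfl⟩
    exact (abs_le.1 (hcard n)).1
  have hIle : ∀ n : ℕ, I ≤ (∑ k ∈ Finset.range (n + 1), g k) / ((n : ℝ) + 1) := fun n =>
    ciInf_le hbdd n
  have hces : Tendsto (fun n : ℕ => (∑ k ∈ Finset.range (n + 1), g k) / ((n : ℝ) + 1)) atTop
      (𝓝 0) := by
    have h1 := hg0.cesaro
    have h2 := (tendsto_add_atTop_iff_nat 1).2 h1
    refine h2.congr fun n => ?_
    push_cast
    rw [div_eq_inv_mul]
  have hI0 : I ≤ 0 := ge_of_tendsto' hces hIle
  have ha0 : 0 < a := by linarith
  have hη : 0 < I + a / 2 := by linarith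
  have hgbar : ∀ k : ℕ, 1 ≤ k → (I + a / 2) - a / 2 ≤ (∑ j ∈ Finset.range k, g j) / k := by
    intro k hk
    have h1 := hIle (k - 1)
    rw [Nat.sub_add_cancel hk] at h1
    have h2 : ((k - 1 : ℕ) : ℝ) + 1 = k := by
      have : ((k - 1 : ℕ) : ℝ) + 1 = ((k - 1 + 1 : ℕ) : ℝ) := by push_cast; ring
      rw [this, Nat.sub_add_cancel hk]
    rw [h2] at h1
    linarith
  -- the system
  have hsys : Pool.Agent.H958.CBP.IsCBP ℱ P g W X p :=
    ⟨fun i => ⟨(hX.brownian i).adapted, (hX.brownian i).brownian, (hX.brownian i).indep⟩,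
      hX.indep, hX.adapted, hX.cont, hX.ranking, hX.sde⟩
  have hmeas0 : ∀ i, Measurable (X i 0) := fun i => (hX.adapted i 0).mono (ℱ.le 0) le_rfl
  set lam : ℕ → ℝ := fun n => 2 * ∑ k ∈ Finset.range (n + 1), g k + (n + 1) * a with hlam
  have hlameq : ∀ n : ℕ, lam n / ((n : ℝ) + 1) =
      2 * ((∑ k ∈ Finset.range (n + 1), g k) / ((n : ℝ) + 1)) + a := by
    intro n
    have : (0 : ℝ) < (n : ℝ) + 1 := by positivity
    simp only [hlam]
    field_simp
  have hlampos : ∀ n, 0 < lam n := by
    intro n
    have h1 : 0 < lam n / ((n : ℝ) + 1) := by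
      rw [hlameq]
      have := hIle n
      linarith
    have h2 : (0 : ℝ) < (n : ℝ) + 1 := by positivity
    exact (div_pos_iff_of_pos_right h2).1 h1
  have hlamlim : Tendsto (fun n : ℕ => lam n / ((n : ℝ) + 1)) atTop (𝓝 a) := by
    simp_rw [hlameq]
    have := (hces.const_mul 2).add_const a
    simpa using this
  have hinit : Pool.Agent.H958.CBP.InitGrowth P X a := by
    have h1 := Pool.Agent.H958.CBP.ae_tendsto_init (P := P)
      (Z := fun n ω => X (n + 1) 0 ω - X n 0 ω) (lam := lam) ha0
      (fun n => (hmeas0 (n + 1)).sub (hmeas0 n)) hlampos h0.law h0.indep hlamlim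
    filter_upwards [h1, h0.zero] with ω h2 h3
    refine h2.congr fun n => ?_
    rw [Finset.sum_range_sub (fun n => X n 0 ω), h3, sub_zero]
  exact hsys.speed hM hg0 ha0 hη hgbar hinit k

end Pool.Agent.Results.MP_2a679d_pr.AlmostSureSpeed
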